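import Pool.Agent.N975.AF.Mq
import Pool.Agent.N973.P15G.All
import Pool.Agent.N973.P21G.All
import Pool.Agent.N973.P21G.Fo
import Pool.Agent.N809.P17.All
import Pool.Agent.N809.P17.Tow
import Pool.Agent.N916.PQ.Main15
import Pool.Agent.N916.PQ.Main21
import Pool.Agent.N969.Den.Close
import Pool.Agent.N969.P15.Glue
import Pool.Agent.N963.JT.Fin
import Pool.Agent.N809.JT.Hj
import Pool.Agent.N809.SN.Fin
import Pool.Agent.N809.SN.Mul3
import Pool.Agent.N809.SN.Neg

/-!
# Three curves without complex multiplication over all multiquadratic fields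

`E_{c,m}` is the quadratic twist by `m` of the curve `E_c`, where

* `E_0 : y² = x (x + 9) (x - 16)` has conductor `15`,
* `E_1 : y² = x (x + 1) (x - 16)` has conductor `17`,
* `E_2 : y² = x (x - 9) (x + 7)` has conductor `21`;

none of them has complex multiplication. We consider all multiquadratic fields
`K = ℚ(√d_1, …, √d_r)` of any degree `2 ^ r`, with any signs and any ramification, and all twists
`E_{c,m}`, `m ≠ 0`. Call `E_{c,m}` good over `K` if the `2 ^ r` curves `E_{c, m d_T}` over `ℚ`, `d_T` the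
products of the `d_i`, have finitely many rational points and no element of order two in the
Tate-Shafarevich group.

(1) If `E_{c,m}` is good over `K`, then `E_{c,m}(K)` is finite and the `L`-series of `E_{c,m}` over `K` of
Mathlib, with the Euler factors of all finite places (computed from a minimal equation at each place),
has a meromorphic continuation to `ℂ`, and its order at `s = 1` is the rank of `E_{c,m}(K)`; both are `0`.

(2) The curve `E_c` is good over `ℚ(√D)` for a set of quadratic fields, real and imaginary, of the exact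
natural density `η / 2`, `κ / 2`, `(137 / 256) η` for `c = 0, 1, 2` respectively, in the ordering by the
absolute value of the discriminant and also by `|D|`; `η = ∏_{i ≥ 1} (1 - 2^{-i}) = 0.2887…`,
`κ = ∏_{i ≥ 1} (1 - 2^{-(2i-1)}) = 0.4194…`.

(3) The curves of conductors `15` and `17` are both good over `ℚ(√D)` for a set of quadratic fields of the
exact density `(433 / 1728) η κ`, and at least one of them is good for a set of the exact density
`η / 2 + κ / 2 - (433 / 1728) η κ = 0.3237…`.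

(4) Let `q_1 < q_2 < ⋯` be primes which are `3` modulo `4` and inert in `ℚ(√17)` and such that
`q_j` is a square modulo `q_i` for `i < j`. Then the curve of conductor `17` is good over all the
fields `ℚ(√-q_1, …, √-q_r)`, of degree `2 ^ r`. There is such a sequence.

(5) Let `K = ℚ(√d)` be any quadratic field. Some twist `E_{1,m}`, `m ≠ 0`, of the curve of conductor `17`
is good over `K` if and only if `K` is not an imaginary field in which `17` splits, and in this case
infinitely many twists `E_{1,m}`, `m` squarefree, are good over `K`.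

(6) Let `K = ℚ(√d_1, …, √d_r)` be a multiquadratic field of any degree and of discriminant prime to `34`:
`d_i ≡ 1 mod 4` and `17 ∤ d_i`. Some twist `E_{1,m}`, `m ≠ 0`, is good over `K` if and only if all `d_i > 0`
(`K` is real) or `(d_i / 17)` is the sign of `d_i` for all `i` (the Frobenius at `17` is the complex
conjugation), and then infinitely many twists `E_{1,m}`, `m` squarefree, are good over `K` (a theorem of
helper 809).

The theorems over `ℚ` are joint work of helpers 969, 970, 971, 972, 973, 974, 975, 99, 218, 402, 575, 637,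
809, 816, 844, 855, 856, 871, 875, 877, 886, 890, 916, 919, 958, 963 and others
(`Results/MP_696deb_nt/Conductor15.lean`, `Conductor17.lean`, `Conductor21.lean` and the project on the
joint law); the passage to the fields follows helpers 856 and 809
(`Results/MP_1a91b9_nt/MultiquadraticX17.lean`).
-/

set_option autoImplicit false

open NumberField IsDedekindDomain Filter Topology

namespace Pool.Agent.Results.MP_ae0bd0_nt.AllQuadraticFieldsNonCM

/-- the coefficients `a` of the equations `y² = x³ + a x + b` of the three curves -/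
def α : Fin 3 → ℤ := ![-12987, -91, -5211]

/-- the coefficients `b` of the equations `y² = x³ + a x + b` of the three curves -/
def β : Fin 3 → ℤ := ![-263466, -330, -31050]

/-- the twist `E_{c,m} : y² = x³ + α_c m² x + β_c m³` over the field `K` -/
def E (c : Fin 3) (m : ℤ) (K : Type) [Field K] : WeierstrassCurve K :=
  { a₁ := 0, a₂ := 0, a₃ := 0, a₄ := ((α c * m ^ 2 : ℤ) : K), a₆ := ((β c * m ^ 3 : ℤ) : K) }

/-- `E_{c,m}(ℚ)` is finite and `Ш(E_{c,m}/ℚ)` has no element of order two -/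
def RankZeroShaTwo (c : Fin 3) (m : ℤ) : Prop :=
  Finite (E c m ℚ).toAffine.Point ∧ ∀ x : Pool.Agent.TH841.SH.D.Sha (E c m ℚ), 2 • x = 0 → x = 0

/-- `ℚ(√d_1, …, √d_r)` has degree `2 ^ r` -/
def Independent {r : ℕ} (d : Fin r → ℤ) : Prop :=
  ∀ T : Finset (Fin r), T.Nonempty → ¬ IsSquare (∏ i ∈ T, d i)

/-- `K = ℚ(√d_1, …, √d_r)` -/
def IsMultiquadratic {r : ℕ} (d : Fin r → ℤ) (K : Type) [Field K] [NumberField K] : Prop :=
  ∃ x : Fin r → K, (∀ i, x i ^ 2 = (d i : K)) ∧ IntermediateField.adjoin ℚ (Set.range x) = ⊤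

/-- `E_{c,m}` is good over `K = ℚ(√d_1, …, √d_r)` -/
def Good (c : Fin 3) {r : ℕ} (d : Fin r → ℤ) (m : ℤ) : Prop :=
  ∀ T : Finset (Fin r), RankZeroShaTwo c (m * ∏ i ∈ T, d i)

/-- `F` is a meromorphic continuation to `ℂ` of the `L`-series of `W` over the number field `K` -/
def IsContinuation {K : Type} [Field K] [NumberField K] (W : WeierstrassCurve K) (F : ℂ → ℂ) :
    Prop :=
  MeromorphicOn F Set.univ ∧ ∀ s : ℂ, 2 < s.re → F s = W.LSeries s

open Classical in
/-- the rank conjecture for `W` over the number field `K`, the rank and the order being zero: `W(K)` is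
finite, the `L`-series has a meromorphic continuation to `ℂ`, and the order at `s = 1` of every
meromorphic continuation is the rank of `W(K)` -/
def RankConjectureZero {K : Type} [Field K] [NumberField K] (W : WeierstrassCurve K) : Prop :=
  Finite W.toAffine.Point ∧
  (∃ F : ℂ → ℂ, IsContinuation W F) ∧
  (∀ F : ℂ → ℂ, IsContinuation W F →
    meromorphicOrderAt F 1 = ((Module.finrank ℤ W.toAffine.Point : ℕ) : WithTop ℤ)) ∧
  Module.finrank ℤ W.toAffine.Point = 0

/-- the curve `E_c` is good over the quadratic field `ℚ(√D)` -/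
def GoodOver (c : Fin 3) (D : ℤ) : Prop := Good c (fun _ : Fin 1 => D) 1

/-- `D` is a fundamental discriminant (`1` included) -/
def Fund (D : ℤ) : Prop := (Squarefree D ∧ D % 4 = 1) ∨
  ∃ m : ℤ, D = 4 * m ∧ Squarefree m ∧ (m % 4 = 2 ∨ m % 4 = 3)

/-- the squarefree integer `d` with `ℚ(√d) = ℚ(√D)` -/
def core (D : ℤ) : ℤ := if D % 2 = 1 then D else D / 4

open Classical in
/-- the number of the squarefree integers `D`, `|D| ≤ X`, with the property `P` -/
noncomputable def count (P : ℤ → Prop) (X : ℕ) : ℕ :=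
  ((Finset.Icc (-(X : ℤ)) X).filter fun D => Squarefree D ∧ P D).card

open Classical in
/-- the number of the fundamental discriminants `D`, `|D| ≤ X`, for which `core D` has the
property `P` -/
noncomputable def countDisc (P : ℤ → Prop) (X : ℕ) : ℕ :=
  ((Finset.Icc (-(X : ℤ)) X).filter fun D => Fund D ∧ P (core D)).card

/-- the set of all quadratic fields `ℚ(√D)` with the property `P` has the natural density `ρ`, in the
ordering by the absolute value of the discriminant and in the ordering by `|D|`, `D` squarefree -/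
def HasDensity (P : ℤ → Prop) (ρ : ℝ) : Prop :=
  Tendsto (fun X : ℕ => (countDisc P X : ℝ) / (countDisc (fun _ => True) X : ℝ)) atTop (𝓝 ρ) ∧
  Tendsto (fun X : ℕ => (count P X : ℝ) / (count (fun _ => True) X : ℝ)) atTop (𝓝 ρ)

/-- the prime numbers of the towers: a set of primes which are `3` modulo `4`, inert in `ℚ(√17)` and such
that a larger one is a square modulo a smaller one -/
def TowerPrimes (q : ℕ → ℕ) : Prop :=
  StrictMono q ∧ (∀ n, (q n).Prime ∧ q n % 4 = 3 ∧ jacobiSym 17 (q n) = -1) ∧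
    ∀ m n, m < n → jacobiSym (q n) (q m) = 1

section proof

open Pool.Agent.N975.AF (EC Law)
open Pool.Agent.N875.X15 (Fin2)
open Pool.Agent.N916.GB (eta)
open Pool.Agent.Y703.CQ (c2)
open Pool.Agent.N919.BS (NS NF Rt17)
open Pool.Agent.N916.MO (G17)

theorem rz_iff (c : Fin 3) (m : ℤ) :
    RankZeroShaTwo c m ↔ Fin2 (EC ℚ (α c * m ^ 2) (β c * m ^ 3)) := by
  unfold RankZeroShaTwo Pool.Agent.N875.X15.Fin2
  refine and_congr Iff.rfl (forall_congr' fun x => ?_)
  rw [two_nsmul]
  exact Iff.rfl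

theorem disc (c : Fin 3) : 4 * (α c) ^ 3 + 27 * (β c) ^ 2 ≠ 0 := by
  fin_cases c <;> simp [α, β]

theorem law (c : Fin 3) : Law (α c) (β c) := by
  intro N hN h
  fin_cases c
  · exact Pool.Agent.N973.P15G.F.rank15 hN h
  · exact Pool.Agent.N809.P17.bsd_all hN h
  · exact Pool.Agent.N973.P21G.rank21 hN h

theorem bsd (c : Fin 3) {r : ℕ} {d : Fin r → ℤ} {m : ℤ} (hm : m ≠ 0) (hind : Independent d)
    (hg : Good c d m) (K : Type) [Field K] [NumberField K] (hK : IsMultiquadratic d K) :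
    Module.finrank ℚ K = 2 ^ r ∧ RankConjectureZero (E c m K) := by
  classical
  obtain ⟨x, hx, hgen⟩ := hK
  obtain ⟨h1, h2, h3, h4⟩ := Pool.Agent.N975.AF.main (disc c) (law c) hm hind
    (fun T => (rz_iff c _).1 (hg T)) K x hx hgen
  have h2' : Finite (E c m K).toAffine.Point := h2
  have h0 : Module.finrank ℤ (E c m K).toAffine.Point = 0 :=
    Module.finrank_eq_zero_of_rank_eq_zero (rank_eq_zero_iff.2 fun _ =>
      ⟨(Nat.card (E c m K).toAffine.Point : ℤ), by exact_mod_cast Nat.card_pos.ne', by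
        rw [natCast_zsmul]
        exact card_nsmul_eq_zero'⟩)
  refine ⟨h1, h2', h3, fun F hF => ?_, h0⟩
  rw [h0, h4 F hF]
  rfl

/-- the curves themselves -/
theorem one_good (c : Fin 3) : RankZeroShaTwo c 1 := by
  rw [rz_iff]
  fin_cases c
  · exact (Pool.Agent.N875.D15.fin2S_iff_sg15 squarefree_one).2 (Or.inr (Or.inl rfl))
  · refine (Pool.Agent.N809.P17.fin2_all squarefree_one).2
      ⟨Or.inl ⟨one_pos, jacobiSym.one_left 17⟩, fun h => absurd h (by norm_num), fun _ => ?_⟩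
    intro x y _ _ p hp
    have e : Pool.Agent.N916.MO.Kn 1 = 1 := rfl
    rw [e, Nat.primeFactors_one] at hp
    exact absurd hp (Finset.notMem_empty p)
  · exact (Pool.Agent.N637.P21.fin2_S one_ne_zero).2 Pool.Agent.N973.P21G.fin2_one'

theorem good_one (c : Fin 3) (D : ℤ) : GoodOver c D ↔ RankZeroShaTwo c D := by
  unfold GoodOver
  constructor
  · intro h
    have := h Finset.univ
    simpa using this
  · intro h T
    rcases T.eq_empty_or_nonempty with rfl | hT
    · rw [Finset.prod_empty, mul_one]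
      exact one_good c
    · have : T = {0} := by
        obtain ⟨i, hi⟩ := hT
        ext j
        rw [Finset.mem_singleton]
        have hj : j = 0 := Subsingleton.elim j 0
        have hi0 : i = 0 := Subsingleton.elim i 0
        subst hi0
        exact ⟨fun _ => hj, fun _ => hj ▸ hi⟩
      rw [this, Finset.prod_singleton, one_mul]
      exact h

theorem fund_core {D : ℤ} (h : Fund D) : Squarefree (core D) := by
  rcases h with ⟨h1, h2⟩ | ⟨m, rfl, h1, h2⟩
  · unfold core
    rw [if_pos (by omega)]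
    exact h1
  · unfold core
    rw [if_neg (by omega)]
    have : 4 * m / 4 = m := by omega
    rw [this]
    exact h1

theorem count_eq (P Q : ℤ → Prop) (h : ∀ d, Squarefree d → (P d ↔ Q d)) (X : ℕ) :
    count P X = NS Q X := by
  classical
  unfold count NS
  refine congrArg Finset.card (Finset.ext fun n => ?_)
  refine (Finset.mem_filter).trans (Iff.trans ?_ (Finset.mem_filter).symm)
  refine and_congr_right fun _ => and_congr_right fun hs => h n hs

theorem countDisc_eq (P Q : ℤ → Prop) (h : ∀ d, Squarefree d → (P d ↔ Q d)) (X : ℕ) :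
    countDisc P X = NF Q X := by
  classical
  unfold countDisc NF
  refine congrArg Finset.card (Finset.ext fun n => ?_)
  refine (Finset.mem_filter).trans (Iff.trans ?_ (Finset.mem_filter).symm)
  refine and_congr_right fun _ => and_congr_right fun hs => h _ (fund_core hs)

/-- from the densities of the criteria -/
theorem dens_of {P Q : ℤ → Prop} {ρ : ℝ} (hPQ : ∀ d, Squarefree d → (P d ↔ Q d))
    (h1 : Tendsto (fun X : ℕ => (NF Q X : ℝ) / (NF (fun _ => True) X : ℝ)) atTop (𝓝 ρ))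
    (h2 : Tendsto (fun X : ℕ => (NS Q X : ℝ) / (NS (fun _ => True) X : ℝ)) atTop (𝓝 ρ)) :
    HasDensity P ρ := by
  constructor
  · refine h1.congr fun X => ?_
    rw [countDisc_eq P Q hPQ, countDisc_eq (fun _ => True) (fun _ => True) fun _ _ => Iff.rfl]
  · refine h2.congr fun X => ?_
    rw [count_eq P Q hPQ, count_eq (fun _ => True) (fun _ => True) fun _ _ => Iff.rfl]

theorem hasProd_eta : HasProd (fun i : ℕ => 1 - (1 / 2 : ℝ) ^ (i + 1)) eta := by
  have h : Multipliable fun i : ℕ => 1 + -((1 / 2 : ℝ) ^ (i + 1)) := by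
    apply multipliable_one_add_of_summable
    have h1 : Summable fun i : ℕ => (1 / 2 : ℝ) ^ i * (1 / 2) :=
      (summable_geometric_of_lt_one (by norm_num) (by norm_num)).mul_right _
    refine h1.congr fun i => ?_
    rw [norm_neg, Real.norm_of_nonneg (by positivity), pow_succ]
  have h3 := h.hasProd
  have e : (fun i : ℕ => 1 + -((1 / 2 : ℝ) ^ (i + 1))) = fun i : ℕ => 1 - (1 / 2 : ℝ) ^ (i + 1) := by
    funext i
    ring
  rw [e] at h3
  exact h3

theorem hasProd_c2 : HasProd (fun i : ℕ => 1 - (1 / 2 : ℝ) ^ (2 * i + 1)) c2 := by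
  have h : Multipliable fun i : ℕ => 1 + -((1 / 2 : ℝ) ^ (2 * i + 1)) := by
    apply multipliable_one_add_of_summable
    have h1 : Summable fun i : ℕ => (1 / 4 : ℝ) ^ i * (1 / 2) :=
      (summable_geometric_of_lt_one (by norm_num) (by norm_num)).mul_right _
    refine h1.congr fun i => ?_
    rw [norm_neg, Real.norm_of_nonneg (by positivity), pow_succ, pow_mul]
    norm_num
  have h3 := h.hasProd
  have e : (fun i : ℕ => 1 + -((1 / 2 : ℝ) ^ (2 * i + 1))) =
      fun i : ℕ => 1 - (1 / 2 : ℝ) ^ (2 * i + 1) := by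
    funext i
    ring
  rw [e] at h3
  exact h3

theorem rz0 (d : ℤ) : GoodOver 0 d ↔ Pool.Agent.N963.JT.R15 d :=
  (good_one 0 d).trans (rz_iff 0 d)

theorem rz1 (d : ℤ) : GoodOver 1 d ↔ Pool.Agent.N963.JT.R17 d :=
  (good_one 1 d).trans (rz_iff 1 d)

theorem rz2 (d : ℤ) : GoodOver 2 d ↔ Fin2 (Pool.Agent.N637.P21.WS d) :=
  (good_one 2 d).trans (rz_iff 2 d)

theorem dens0 : HasDensity (GoodOver 0) (eta / 2) := by
  have key : ∀ d, Squarefree d → d ≠ 1 → d ≠ -1 →
      (Pool.Agent.N809.PQ.Sg15 d ↔ Pool.Agent.N963.JT.R15 d) :=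
    fun d hs h1 h2 => Pool.Agent.N963.JT.r15_iff d hs h1 h2
  exact dens_of (fun d _ => rz0 d)
    (Pool.Agent.N963.JT.NF_cl key Pool.Agent.N916.PQ.fd15 Pool.Agent.N969.Den.NF_top)
    (Pool.Agent.N963.JT.NS_cl key Pool.Agent.N916.PQ.sf15 Pool.Agent.N969.Den.NS_top)

theorem dens1 : HasDensity (GoodOver 1) (c2 / 2) :=
  dens_of (fun d hs => (rz1 d).trans (Pool.Agent.N809.P17.fin2_all hs))
    Pool.Agent.N916.MO.dens17_fd Pool.Agent.N916.MO.dens17_sf

theorem dens2 : HasDensity (GoodOver 2) (137 / 256 * eta) := by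
  have key : ∀ d, Squarefree d → d ≠ 1 → d ≠ -1 →
      (Pool.Agent.N809.PQ.Sg21 d ↔ Fin2 (Pool.Agent.N637.P21.WS d)) :=
    fun d hs h1 _ => (Pool.Agent.N809.D21.fin2_iff hs h1).symm
  exact dens_of (fun d _ => rz2 d)
    (Pool.Agent.N963.JT.NF_cl key Pool.Agent.N916.PQ.L21.fd21 Pool.Agent.N969.Den.NF_top)
    (Pool.Agent.N963.JT.NS_cl key Pool.Agent.N916.PQ.L21.sf21 Pool.Agent.N969.Den.NS_top)

theorem dens01 : HasDensity (fun D => GoodOver 0 D ∧ GoodOver 1 D) (433 / 1728 * (eta * c2)) :=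
  dens_of (fun d _ => and_congr (rz0 d) (rz1 d))
    (Pool.Agent.N963.JT.fin_NF Pool.Agent.N809.JT.jl).1
    (Pool.Agent.N963.JT.fin_NS Pool.Agent.N809.JT.jl).1

theorem dens01' : HasDensity (fun D => GoodOver 0 D ∨ GoodOver 1 D)
    (eta / 2 + c2 / 2 - 433 / 1728 * (eta * c2)) :=
  dens_of (fun d _ => or_congr (rz0 d) (rz1 d))
    (Pool.Agent.N963.JT.fin_NF Pool.Agent.N809.JT.jl).2.2
    (Pool.Agent.N963.JT.fin_NS Pool.Agent.N809.JT.jl).2.2

open Pool.Agent.N809.P17 in
/-- the towers -/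
theorem tower {q : ℕ → ℕ} (hq : TowerPrimes q) (r : ℕ) :
    Independent (fun i : Fin r => -(q i : ℤ)) ∧ Good 1 (fun i : Fin r => -(q i : ℤ)) 1 := by
  classical
  obtain ⟨hmono, hpr, hsq⟩ := hq
  have hinj : Function.Injective fun i : Fin r => q i := fun i j h =>
    Fin.ext (hmono.injective h)
  have hT : ∀ T : Finset (Fin r), Trn (T.image fun i : Fin r => q i) := by
    intro T
    refine ⟨?_, ?_, ?_, ?_⟩
    · intro p hp
      obtain ⟨i, -, rfl⟩ := Finset.mem_image.1 hp
      exact (hpr i).1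
    · intro p hp
      obtain ⟨i, -, rfl⟩ := Finset.mem_image.1 hp
      exact (hpr i).2.1
    · intro p hp
      obtain ⟨i, -, rfl⟩ := Finset.mem_image.1 hp
      exact (hpr i).2.2
    · intro p hp p' hp' hlt
      obtain ⟨i, -, rfl⟩ := Finset.mem_image.1 hp
      obtain ⟨j, -, rfl⟩ := Finset.mem_image.1 hp'
      exact hsq i j (hmono.lt_iff_lt.1 hlt)
  have hprod : ∀ T : Finset (Fin r), ∏ i ∈ T, (-(q i : ℤ)) = mT (T.image fun i : Fin r => q i) := by
    intro T
    unfold mT
    rw [Finset.prod_image fun i _ j _ h => hinj h]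
  refine ⟨fun T hne hs => ?_, fun T => ?_⟩
  · rw [hprod T] at hs
    have h1 := mT_sqf (hT T)
    obtain ⟨a, ha⟩ := hs
    have h2 : IsUnit a := h1 a ⟨1, by rw [mul_one]; exact ha⟩
    have h3 : (mT (T.image fun i : Fin r => q i)).natAbs = 1 := by
      rw [ha, Int.natAbs_mul, Int.isUnit_iff_natAbs_eq.1 h2]
    rw [mT_abs] at h3
    obtain ⟨i, hi⟩ := hne
    have h4 : q i ∣ 1 := by
      rw [← h3]
      exact Finset.dvd_prod_of_mem (fun p => p) (Finset.mem_image_of_mem (fun i : Fin r => q i) hi)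
    exact (hpr i).1.one_lt.ne' (Nat.dvd_one.1 h4)
  · rw [one_mul, hprod T, rz_iff]
    exact (Pool.Agent.N875.P17.fin2S_iff (mT_sqf (hT T))).2 (T_Sg (hT T))

theorem good_two {d m : ℤ} (h1 : RankZeroShaTwo 1 m) (h2 : RankZeroShaTwo 1 (m * d)) :
    Good 1 (fun _ : Fin 1 => d) m := by
  intro T
  rcases T.eq_empty_or_nonempty with rfl | hT
  · rw [Finset.prod_empty, mul_one]
    exact h1
  · have : T = {0} := by
      obtain ⟨i, hi⟩ := hT
      ext j
      rw [Finset.mem_singleton]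
      have hj : j = 0 := Subsingleton.elim j 0
      have hi0 : i = 0 := Subsingleton.elim i 0
      subst hi0
      exact ⟨fun _ => hj, fun _ => hj ▸ hi⟩
    rw [this, Finset.prod_singleton]
    exact h2

theorem of_sg {m : ℤ} (hs : Squarefree m) (h : Pool.Agent.N875.P17.Sg m) : RankZeroShaTwo 1 m :=
  (rz_iff 1 m).2 ((Pool.Agent.N875.P17.fin2S_iff hs).2 h)

/-- the quadratic fields with good twists, by the pairs of twists of helper 809 -/
theorem every {d : ℤ} (hs : Squarefree d) (hd : ¬ (d < 0 ∧ jacobiSym d 17 = 1)) (B : ℕ) :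
    ∃ m : ℤ, Squarefree m ∧ B < m.natAbs ∧ Good 1 (fun _ : Fin 1 => d) m := by
  have h0 : d ≠ 0 := hs.ne_zero
  have ha : d.natAbs ≠ 0 := Int.natAbs_ne_zero.2 h0
  rcases lt_or_gt_of_ne h0 with h2 | h2
  · have h3 : jacobiSym d 17 ≠ 1 := fun h3 => hd ⟨h2, h3⟩
    obtain ⟨k, k1, kB, k3, k4⟩ := Pool.Agent.N809.SN.exists_k d.natAbs
    have hkd : ¬ (k : ℤ) ∣ d := fun hd => by
      have := Nat.le_of_dvd (Int.natAbs_pos.2 h0) (Int.natCast_dvd.1 hd)
      omega
    obtain ⟨t, ht, hc⟩ := Pool.Agent.N809.SN.neg hs h2 h3 k1 k3 k4 hkd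
    obtain ⟨l, l1, lB, l2⟩ := Pool.Agent.N809.SN.dir
      (mul_ne_zero (by norm_num) (mul_ne_zero k1.ne_zero ha)) ht B
    obtain ⟨h4, h5, h6, h7⟩ := hc l l1 l2
    refine ⟨-(l : ℤ) * -(k : ℤ), h4, ?_, good_two (of_sg h4 h6) ?_⟩
    · rw [Int.natAbs_mul, Int.natAbs_neg, Int.natAbs_neg, Int.natAbs_natCast, Int.natAbs_natCast]
      exact lt_of_lt_of_le lB (Nat.le_mul_of_pos_right _ k1.pos)
    · have e : -(l : ℤ) * -(k : ℤ) * d = -(l : ℤ) * (-(k : ℤ) * d) := by ring
      rw [e]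
      exact of_sg h5 h7
  · by_cases h3 : jacobiSym d 17 = -1
    · obtain ⟨t, ht, hc⟩ := Pool.Agent.N809.SN.pos2 hs h2 h3
      obtain ⟨l, l1, lB, l2⟩ := Pool.Agent.N809.SN.dir (mul_ne_zero (by norm_num) ha) ht B
      obtain ⟨h4, h5, h6, h7⟩ := hc l l1 l2
      refine ⟨-(l : ℤ) * 17, h4, ?_, good_two (of_sg h4 h6) ?_⟩
      · omega
      · have e : -(l : ℤ) * 17 * d = -(l : ℤ) * (17 * d) := by ring
        rw [e]
        exact of_sg h5 h7
    · obtain ⟨t, ht, hc⟩ := Pool.Agent.N809.SN.pos1 hs h2 h3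
      obtain ⟨l, l1, lB, l2⟩ := Pool.Agent.N809.SN.dir (mul_ne_zero (by norm_num) ha) ht B
      obtain ⟨h4, h5, h6, h7⟩ := hc l l1 l2
      exact ⟨-(l : ℤ), h4, by omega, good_two (of_sg h4 h6) (of_sg h5 h7)⟩

theorem rt_of {N k z : ℤ} (hN : Squarefree N) (hk : k ≠ 0) (e : z = N * k ^ 2)
    (hz : RankZeroShaTwo 1 z) : Rt17 N := by
  rw [rz_iff, e, Pool.Agent.N975.AF.fin2_scale (disc 1) hN.ne_zero hk] at hz
  exact ((Pool.Agent.N809.P17.fin2_all hN).1 hz).1

/-- the quadratic fields without good twists -/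
theorem no_twist {d m : ℤ} (hd : d < 0) (hj : jacobiSym d 17 = 1) (hm : m ≠ 0)
    (h : Good 1 (fun _ : Fin 1 => d) m) : False := by
  have h1 : RankZeroShaTwo 1 m := by
    have := h ∅
    rwa [Finset.prod_empty, mul_one] at this
  have h2 : RankZeroShaTwo 1 (m * d) := by
    have := h {0}
    rwa [Finset.prod_singleton] at this
  obtain ⟨N, k, hN, hk, e1⟩ := Pool.Agent.N975.AF.sqf_rep hm
  obtain ⟨N', k', hN', hk', e2⟩ := Pool.Agent.N975.AF.sqf_rep (mul_ne_zero hm hd.ne)
  refine Pool.Agent.N809.SN.obst hN hN' hd hj ?_ (rt_of hN hk e1 h1) (rt_of hN' hk' e2 h2)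
  have e3 : (k * k') ^ 2 * (d * N * N') = (d * m) ^ 2 := by
    calc (k * k') ^ 2 * (d * N * N') = d * (N * k ^ 2) * (N' * k' ^ 2) := by ring
      _ = (d * m) ^ 2 := by
        rw [← e1, ← e2]
        ring
  have e4 : (k * k') ^ 2 ∣ (d * m) ^ 2 := ⟨_, e3.symm⟩
  rw [Int.pow_dvd_pow_iff two_ne_zero] at e4
  obtain ⟨c, hc⟩ := e4
  refine ⟨c, mul_left_cancel₀ (pow_ne_zero 2 (mul_ne_zero hk hk')) ?_⟩
  rw [e3, hc]
  ring

/-- the multiquadratic fields of discriminant prime to `34` (theorem of helper 809) -/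
theorem multi {r : ℕ} (d : Fin r → ℤ) (hd : ∀ i, d i % 4 = 1)
    (h : (∀ i, 0 < d i ∧ ¬ (17 : ℤ) ∣ d i) ∨ ∀ i, jacobiSym (d i) 17 = (d i).sign) (B : ℕ) :
    ∃ m : ℤ, Squarefree m ∧ B < m.natAbs ∧ Good 1 d m := by
  have key : ∃ m : ℤ, Squarefree m ∧ (B : ℤ) < |m| ∧ ∀ T : Finset (Fin r), ∃ D k : ℤ,
      D ≠ 0 ∧ k ≠ 0 ∧ ∏ i ∈ T, d i = D * k ^ 2 ∧ Squarefree (m * D) ∧
        Pool.Agent.N875.P17.Sg (m * D) := by
    rcases h with h | h
    · exact Pool.Agent.N809.SN.prod_ex3 d (fun i => ⟨(h i).1, hd i, (h i).2⟩) B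
    · exact Pool.Agent.N809.SN.prod_ex2 d (fun i h0 => by
        have := hd i
        rw [h0] at this
        norm_num at this) (fun i => ⟨hd i, h i⟩) B
  obtain ⟨m, h1, h2, h3⟩ := key
  refine ⟨m, h1, ?_, fun T => ?_⟩
  · rw [← Int.natCast_natAbs] at h2
    exact_mod_cast h2
  · obtain ⟨D, k, hD, hk, he, hs, hS⟩ := h3 T
    have e1 : m * ∏ i ∈ T, d i = m * D * k ^ 2 := by
      rw [he]
      ring
    rw [e1, rz_iff, Pool.Agent.N975.AF.fin2_scale (disc 1) hs.ne_zero hk]
    exact (Pool.Agent.N875.P17.fin2S_iff hs).2 hS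

/-- the obstruction by the signs (helper 809) -/
theorem none_multi {r : ℕ} (d : Fin r → ℤ) (h17 : ∀ i, ¬ (17 : ℤ) ∣ d i) {m : ℤ} (hm : m ≠ 0)
    (hg : Good 1 d m) : (∀ i, 0 < d i) ∨ ∀ i, jacobiSym (d i) 17 = (d i).sign := by
  obtain ⟨a, k, ha, hk, he⟩ := Pool.Agent.N975.AF.sqf_rep hm
  have h0 : RankZeroShaTwo 1 m := by
    have := hg ∅
    rwa [Finset.prod_empty, mul_one] at this
  have ra := rt_of ha hk he h0
  have key : ∀ i, (¬ (17 : ℤ) ∣ a → jacobiSym (d i) 17 = (d i).sign) ∧ ((17 : ℤ) ∣ a → 0 < d i) := by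
    intro i
    have hdi : d i ≠ 0 := by
      intro h
      exact h17 i (by rw [h]; exact dvd_zero _)
    obtain ⟨n, l, hn, hl, he'⟩ := Pool.Agent.N975.AF.sqf_rep (mul_ne_zero hm hdi)
    have h1 : RankZeroShaTwo 1 (m * d i) := by
      have := hg {i}
      rwa [Finset.prod_singleton] at this
    exact Pool.Agent.N809.SN.obst2 (h17 i) ha hn (Pool.Agent.N809.SN.sq_of hk he he') ra
      (rt_of hn hl he' h1)
  by_cases h : (17 : ℤ) ∣ a
  · exact Or.inl fun i => (key i).2 h
  · exact Or.inr fun i => (key i).1 h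

end proof

/-- **Three curves without complex multiplication over all multiquadratic fields.** -/
theorem result :
    -- the rank conjecture over all multiquadratic fields
    (∀ (c : Fin 3) (r : ℕ) (d : Fin r → ℤ) (m : ℤ), m ≠ 0 → Independent d → Good c d m →
      ∀ (K : Type) [Field K] [NumberField K], IsMultiquadratic d K →
        Module.finrank ℚ K = 2 ^ r ∧ RankConjectureZero (E c m K)) ∧
    -- the quadratic fields
    (∃ η κ : ℝ, HasProd (fun i : ℕ => 1 - (1 / 2 : ℝ) ^ (i + 1)) η ∧ 0.2887 < η ∧ η < 0.2889 ∧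
      HasProd (fun i : ℕ => 1 - (1 / 2 : ℝ) ^ (2 * i + 1)) κ ∧ 0.4194 < κ ∧ κ < 0.4195 ∧
      HasDensity (GoodOver 0) (η / 2) ∧
      HasDensity (GoodOver 1) (κ / 2) ∧
      HasDensity (GoodOver 2) (137 / 256 * η) ∧
      HasDensity (fun D => GoodOver 0 D ∧ GoodOver 1 D) (433 / 1728 * (η * κ)) ∧
      HasDensity (fun D => GoodOver 0 D ∨ GoodOver 1 D) (η / 2 + κ / 2 - 433 / 1728 * (η * κ))) ∧
    -- the towers
    (∃ q : ℕ → ℕ, TowerPrimes q) ∧
    (∀ q : ℕ → ℕ, TowerPrimes q → ∀ r : ℕ, Independent (fun i : Fin r => -(q i : ℤ)) ∧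
      Good 1 (fun i : Fin r => -(q i : ℤ)) 1) ∧
    -- the good twists of the curve of conductor `17` over every quadratic field
    (∀ d : ℤ, Squarefree d →
      ((∃ m : ℤ, m ≠ 0 ∧ Good 1 (fun _ : Fin 1 => d) m) ↔ ¬ (d < 0 ∧ jacobiSym d 17 = 1)) ∧
      (¬ (d < 0 ∧ jacobiSym d 17 = 1) →
        ∀ B : ℕ, ∃ m : ℤ, Squarefree m ∧ B < m.natAbs ∧ Good 1 (fun _ : Fin 1 => d) m)) ∧
    -- the good twists over the multiquadratic fields of discriminant prime to `34`
    ∀ (r : ℕ) (d : Fin r → ℤ), (∀ i, d i % 4 = 1 ∧ ¬ (17 : ℤ) ∣ d i) →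
      ((∃ m : ℤ, m ≠ 0 ∧ Good 1 d m) ↔
        ((∀ i, 0 < d i) ∨ ∀ i, jacobiSym (d i) 17 = (d i).sign)) ∧
      (((∀ i, 0 < d i) ∨ ∀ i, jacobiSym (d i) 17 = (d i).sign) → ∀ B : ℕ,
        ∃ m : ℤ, Squarefree m ∧ B < m.natAbs ∧ Good 1 d m) := by
  obtain ⟨-, -, -, hb1, hb2⟩ := Pool.Agent.Y948.CQ.t_C2
  exact ⟨fun c r d m hm hind hg K _ _ hK => bsd c hm hind hg K hK,
    ⟨Pool.Agent.N916.GB.eta, Pool.Agent.Y703.CQ.c2, hasProd_eta,
      Pool.Agent.N916.GB.eta_bounds.1, Pool.Agent.N916.GB.eta_bounds.2, hasProd_c2, hb1, hb2,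
      dens0, dens1, dens2, dens01, dens01'⟩,
    Pool.Agent.N809.P17.exists_seq, fun q hq r => tower hq r, fun d hs =>
      ⟨⟨fun ⟨_, hm, h⟩ ⟨h1, h2⟩ => no_twist h1 h2 hm h, fun h => by
        obtain ⟨m, hm, -, hg⟩ := every hs h 0
        exact ⟨m, hm.ne_zero, hg⟩⟩, fun h B => every hs h B⟩,
    fun r d hd => by
      have key : ((∀ i, 0 < d i) ∨ ∀ i, jacobiSym (d i) 17 = (d i).sign) → ∀ B : ℕ,
          ∃ m : ℤ, Squarefree m ∧ B < m.natAbs ∧ Good 1 d m := fun h B =>
        multi d (fun i => (hd i).1) (h.imp (fun h i => ⟨h i, (hd i).2⟩) id) B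
      refine ⟨⟨fun ⟨m, hm, h⟩ => none_multi d (fun i => (hd i).2) hm h, fun h => ?_⟩, key⟩
      obtain ⟨m, hm, -, hg⟩ := key h 0
      exact ⟨m, hm.ne_zero, hg⟩⟩

end Pool.Agent.Results.MP_ae0bd0_nt.AllQuadraticFieldsNonCM
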