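import Pool.Agent.N784.TC.Ran2
import Pool.Agent.W164.RC.Bad

/-!
# Central values of Hecke L-functions of imaginary quadratic fields, and `L(E/K, s)` over ray class
fields

**Part 1.**  `M` is an imaginary quadratic field, `n ≠ 0` an infinity type (for the type `(1, 0)` the
Hecke characters are those of the elliptic curves and abelian varieties with complex multiplication
by `M`).  For every `ε > 0` and `B`, for every modulus `𝔮` of sufficiently large norm, at least the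
proportion `1/3 - ε` of the Hecke characters `ψ` modulo `𝔮` of infinity type `n` (there are more than
`N(𝔮)^(1-ε)` of them) have `L(1/2 + it, ψ) ≠ 0`, for every real `t` with `|t| ≤ B`.

**Part 2.**  `M` is a number field which contains `i`, `K` is a (narrow) ray class field of `M` whose
modulus `𝔮` is divisible by `2 + 2i`, and `E` is an elliptic curve `y² = x³ - D x` with a fourth root
of `D` in `K` (for example `y² = x³ - x`).  `L(E/K, s)` is, up to the Euler factors at finitely many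
places, the product over the `[K : M]` Hecke characters `ψ` modulo `𝔮` of the infinity type of `E` of
`L(s - 1/2, ψ) L(s - 1/2, ψ̄)`, and `ord_{s=1} L(E/K, s) ≤ C [K : ℚ] (1 + log U(𝔮))`, where `U(𝔮)` is
the number of residue classes modulo `𝔮` which contain a unit of `M`.

**Part 3.**  If `M = ℚ(i)`, at least `(1/3 - ε) [K : M]` of the `[K : M]` factors
`L(s - 1/2, ψ) L(s - 1/2, ψ̄)` of `L(E/K, s)` do not vanish at `s = 1`, if `N(𝔮)` is sufficiently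
large.

Proof of part 1: the first and the second moment of the L-functions with Selberg's mollifier, for
the characters of each conductor; the second moment by the exact symmetric formula for
`|L(1/2+it, ψ)|²`, orthogonality, and the separation of the ideals in a ray class (the field has
finitely many units).  For the ray class characters (`n = 0`) this is in the starting library
(`Pool.Agent.Y773.NV`), whose proof is followed here.
-/

set_option autoImplicit false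

open Complex NumberField IsDedekindDomain

namespace Pool.Agent.Results.MP_ae0bd0_nt.CentralValuesRayClass

/-- The (unitary) Hecke characters modulo `𝔮` of infinity type `n`, as multiplicative functions on the
ideals: `ψ(𝔞) ≠ 0` exactly for `𝔞` prime to `𝔮`, and
`ψ((x)) = ∏_φ (φ(x)/|φ(x)|)^(n φ)` for all totally positive `x ≡ 1 mod 𝔮`. -/
def HeckeCharacters {M : Type} [Field M] [NumberField M] (n : (M →+* ℂ) → ℕ) (𝔮 : Ideal (𝓞 M)) :
    Set (Ideal (𝓞 M) →*₀ ℂ) :=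
  {ψ | (∀ 𝔞 : Ideal (𝓞 M), ψ 𝔞 ≠ 0 ↔ IsCoprime 𝔞 𝔮) ∧
    ∀ x : 𝓞 M, x ≠ 0 → x - 1 ∈ 𝔮 → (∀ τ : M →+* ℝ, 0 < τ x) →
      ψ (Ideal.span {x}) = ∏ φ : M →+* ℂ, (φ x / (‖φ x‖ : ℂ)) ^ n φ}

/-- `F` is the entire continuation of `L(s, ψ) = ∑ ψ(𝔞) N(𝔞)^(-s)` -/
def Continues {M : Type} [Field M] [NumberField M] (ψ : Ideal (𝓞 M) →*₀ ℂ) (F : ℂ → ℂ) : Prop :=
  Differentiable ℂ F ∧ ∀ s : ℂ, 1 < s.re →
    F s = ∑' 𝔞 : Ideal (𝓞 M), ψ 𝔞 * ((Ideal.absNorm 𝔞 : ℕ) : ℂ) ^ (-s)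

/-- the infinity type of `y² = x³ - x` over a field `M` containing `i`: `1` at the embeddings which map
`i` to the complex number `i`, and `0` at the others -/
noncomputable def typeOf {M : Type} [Field M] [NumberField M] (ι₀ : GaussianInt →+* 𝓞 M) :
    (M →+* ℂ) → ℕ :=
  fun φ => if φ ((ι₀ ⟨0, 1⟩ : 𝓞 M) : M) = Complex.I then 1 else 0

/-- `K` is the (narrow) ray class field of `M` of modulus `𝔮`: `ι` embeds the ring of integers of `M`
into that of `K`, and `art` is the Artin map (used only for the ideals prime to `𝔮`), with values in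
the automorphisms of the ring of integers of `K` (equivalently, of `K`), such that
* `art` is multiplicative,
* the integers of `M` are the invariants (so `K/M` is Galois and `art` is surjective onto its group),
* the kernel consists of the ideals `𝔞` with `(a) 𝔞 = (b)` for some totally positive
  `a, b ≡ 1 mod 𝔮` (so the Galois group is the narrow ray class group modulo `𝔮`),
* `K/M` is unramified outside `𝔮`: the inertia group at every prime `v` of `K` not dividing `𝔮` is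
  trivial,
* for every prime ideal `𝔭` not dividing `𝔮`, `art 𝔭` is the Frobenius automorphism
  `x ↦ x ^ N(𝔭)` at all primes `v` of `K` above `𝔭`. -/
structure IsRayClassField {M : Type} [Field M] [NumberField M] (𝔮 : Ideal (𝓞 M)) (K : Type)
    [Field K] [NumberField K] (ι : 𝓞 M →+* 𝓞 K) (art : Ideal (𝓞 M) → (𝓞 K ≃+* 𝓞 K)) : Prop where
  mul : ∀ 𝔞 𝔟 : Ideal (𝓞 M), IsCoprime 𝔞 𝔮 → IsCoprime 𝔟 𝔮 → art (𝔞 * 𝔟) = art 𝔞 * art 𝔟
  invariants : ∀ x : 𝓞 K, (∀ 𝔞 : Ideal (𝓞 M), IsCoprime 𝔞 𝔮 → art 𝔞 x = x) ↔ x ∈ ι.range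
  kernel : ∀ 𝔞 : Ideal (𝓞 M), IsCoprime 𝔞 𝔮 → (art 𝔞 = 1 ↔ ∃ a b : 𝓞 M, a - 1 ∈ 𝔮 ∧ b - 1 ∈ 𝔮 ∧
    (∀ τ : M →+* ℝ, 0 < τ a) ∧ (∀ τ : M →+* ℝ, 0 < τ b) ∧ Ideal.span {a} * 𝔞 = Ideal.span {b})
  unramified : ∀ v : HeightOneSpectrum (𝓞 K), ¬ 𝔮.map ι ≤ v.asIdeal →
    ∀ 𝔞 : Ideal (𝓞 M), IsCoprime 𝔞 𝔮 → (∀ x, art 𝔞 x - x ∈ v.asIdeal) → art 𝔞 = 1
  frobenius : ∀ 𝔭 : Ideal (𝓞 M), 𝔭.IsPrime → IsCoprime 𝔭 𝔮 → ∀ v : HeightOneSpectrum (𝓞 K),
    𝔭.map ι ≤ v.asIdeal → ∀ x : 𝓞 K, art 𝔭 x - x ^ Ideal.absNorm 𝔭 ∈ v.asIdeal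

/-- `1 - a n^(-s) + ε n^(1-2s)` -/
noncomputable def localPoly (a ε : ℤ) (n : ℕ) (s : ℂ) : ℂ :=
  1 - (a : ℂ) * (n : ℂ) ^ (-s) + (ε : ℂ) * (n : ℂ) ^ (1 - 2 * s)

/-- the `(a, ε)` which are possible for the Euler factor `(1 - a n^(-s) + ε n^(1-2s))⁻¹` of an
elliptic curve at a place with `n` residue classes: `ε = 1` and `a² ≤ 4 n` (good reduction, Hasse) or
`ε = 0` and `a ∈ {-1, 0, 1}` (bad reduction) -/
def Possible (n : ℕ) (a ε : ℤ) : Prop := (ε = 1 ∧ a ^ 2 ≤ 4 * (n : ℤ)) ∨ (ε = 0 ∧ a ^ 2 ≤ 1)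

section

variable {M : Type} [Field M] [NumberField M] {K : Type} [Field K] [NumberField K]

/-- the places of `K` dividing `𝔮` or `D` -/
def exceptional (𝔮 : Ideal (𝓞 M)) (ι : 𝓞 M →+* 𝓞 K) (D : 𝓞 K) : Set (HeightOneSpectrum (𝓞 K)) :=
  {v | 𝔮.map ι ≤ v.asIdeal ∨ D ∈ v.asIdeal}

open Classical in
/-- The Euler factor at `v` of `y² = x³ - D x`.  If `v` does not divide `𝔮 D` (then it does not divide
`2 D`, the reduction is good) it is `(1 - a_v (Nv)^(-s) + (Nv)^(1-2s))⁻¹`, where `a_v` is `Nv` minus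
the number of affine solutions `(x, y)` of the equation over the residue field `𝓞 K / v`; for the
finitely many other places it is the factor given by `(a v, ε v)`. -/
noncomputable def factor (𝔮 : Ideal (𝓞 M)) (ι : 𝓞 M →+* 𝓞 K) (D : 𝓞 K)
    (a ε : HeightOneSpectrum (𝓞 K) → ℤ) (s : ℂ) (v : HeightOneSpectrum (𝓞 K)) : ℂ :=
  if v ∈ exceptional 𝔮 ι D then (localPoly (a v) (ε v) (Ideal.absNorm v.asIdeal) s)⁻¹
  else (localPoly (((Ideal.absNorm v.asIdeal : ℕ) : ℤ) -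
      ((Nat.card {p : (𝓞 K ⧸ v.asIdeal) × (𝓞 K ⧸ v.asIdeal) //
        p.2 ^ 2 = p.1 ^ 3 - Ideal.Quotient.mk v.asIdeal D * p.1} : ℕ) : ℤ)) 1
      (Ideal.absNorm v.asIdeal) s)⁻¹

/-- the places of `K` which divide `D` but not `𝔮` -/
def dividingD (𝔮 : Ideal (𝓞 M)) (ι : 𝓞 M →+* 𝓞 K) (D : 𝓞 K) : Set (HeightOneSpectrum (𝓞 K)) :=
  {v | D ∈ v.asIdeal ∧ ¬ 𝔮.map ι ≤ v.asIdeal}

/-- the local polynomial at `v` of `y² = x³ - x` (which is isomorphic to `E_D` over `K` if `D` is a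
fourth power) -/
noncomputable def isoPoly (v : HeightOneSpectrum (𝓞 K)) (s : ℂ) : ℂ :=
  localPoly (((Ideal.absNorm v.asIdeal : ℕ) : ℤ) -
      ((Nat.card {p : (𝓞 K ⧸ v.asIdeal) × (𝓞 K ⧸ v.asIdeal) // p.2 ^ 2 = p.1 ^ 3 - p.1} : ℕ) : ℤ)) 1
      (Ideal.absNorm v.asIdeal) s

/-- the number of residue classes modulo `𝔮` which contain a unit of `M` -/
noncomputable def unitClasses (𝔮 : Ideal (𝓞 M)) : ℕ :=
  (Set.range (fun u : (𝓞 M)ˣ => Ideal.Quotient.mk 𝔮 (u : 𝓞 M))).ncard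

end

section

variable {M : Type} [Field M] [NumberField M]

/-- the Hecke characters modulo `𝔮` of infinity type `n` with `L(1/2 + it, ψ) ≠ 0` -/
def nonzeroAt (n : (M →+* ℂ) → ℕ) (𝔮 : Ideal (𝓞 M)) (t : ℝ) : Set (Ideal (𝓞 M) →*₀ ℂ) :=
  {ψ ∈ HeckeCharacters n 𝔮 | ∃ F, Continues ψ F ∧ F (1 / 2 + (t : ℂ) * Complex.I) ≠ 0}

/-- all the L-functions of the Hecke characters of type `n` are entire, and for all `ε > 0` and `B`,
for all `𝔮` of sufficiently large norm and all `|t| ≤ B`, at least the proportion `1/3 - ε` of them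
(they are at least `N(𝔮)^(1-ε)`) does not vanish at `1/2 + it` -/
def ThirdNonzero (n : (M →+* ℂ) → ℕ) : Prop :=
  (∀ (𝔮 : Ideal (𝓞 M)), 𝔮 ≠ ⊥ → 𝔮 ≠ ⊤ → ∀ ψ ∈ HeckeCharacters n 𝔮, ∃ F, Continues ψ F) ∧
  ∀ B ε : ℝ, 0 < ε → ∃ X₀ : ℝ, ∀ 𝔮 : Ideal (𝓞 M), X₀ ≤ (Ideal.absNorm 𝔮 : ℝ) →
    (HeckeCharacters n 𝔮).Finite ∧
    (Ideal.absNorm 𝔮 : ℝ) ^ (1 - ε) ≤ (HeckeCharacters n 𝔮).ncard ∧
    ∀ t : ℝ, |t| ≤ B → (1 / 3 - ε) * ((HeckeCharacters n 𝔮).ncard : ℝ) ≤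
      (((nonzeroAt n 𝔮 t).ncard : ℕ) : ℝ)

variable {K : Type} [Field K] [NumberField K]

/-- the product of the local polynomials at the places dividing `𝔮 D` -/
noncomputable def correction (𝔮 : Ideal (𝓞 M)) (ι : 𝓞 M →+* 𝓞 K) (D : 𝓞 K)
    (a ε : HeightOneSpectrum (𝓞 K) → ℤ) (s : ℂ) : ℂ :=
  ∏ᶠ v ∈ exceptional 𝔮 ι D, localPoly (a v) (ε v) (Ideal.absNorm v.asIdeal) s

/-- `L` is the L-function of `E_D` over `K` (for `Re s > 1/2`), with the Euler factors given by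
`(a v, ε v)` at the places `v` dividing `𝔮 D`; its product with the local polynomials at these
(finitely many) places is entire -/
def IsLFunction (𝔮 : Ideal (𝓞 M)) (ι : 𝓞 M →+* 𝓞 K) (D : 𝓞 K)
    (a ε : HeightOneSpectrum (𝓞 K) → ℤ) (L : ℂ → ℂ) : Prop :=
  AnalyticOnNhd ℂ L {s : ℂ | 1 / 2 < s.re} ∧
  (∀ s : ℂ, 3 / 2 < s.re → HasProd (factor 𝔮 ι D a ε s) (L s)) ∧
  (exceptional 𝔮 ι D).Finite ∧
  ∃ F : ℂ → ℂ, Differentiable ℂ F ∧ ∀ s : ℂ, 1 / 2 < s.re → F s = L s * correction 𝔮 ι D a ε s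

/-- for `Re s > 1/2`, `L(s)` times the local polynomials at the places dividing `𝔮 D` is the product
of the `L(s-1/2, ψ) L(s-1/2, ψ̄)` over the Hecke characters modulo `𝔮` of the infinity type of `E`,
times the local polynomials of `y² = x³ - x` at the places dividing `D` but not `𝔮` (which have no
zeros there) -/
def Factorises (ι₀ : GaussianInt →+* 𝓞 M) (𝔮 : Ideal (𝓞 M)) (ι : 𝓞 M →+* 𝓞 K) (D : 𝓞 K)
    (a ε : HeightOneSpectrum (𝓞 K) → ℤ) (L : ℂ → ℂ) : Prop :=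
  (∀ v ∈ dividingD 𝔮 ι D, ∀ s : ℂ, 1 / 2 < s.re → isoPoly v s ≠ 0) ∧
    ∀ F : (Ideal (𝓞 M) →*₀ ℂ) → ℂ → ℂ,
      (∀ ψ ∈ HeckeCharacters (typeOf ι₀) 𝔮, Continues ψ (F ψ)) →
      ∀ s : ℂ, 1 / 2 < s.re → L s * correction 𝔮 ι D a ε s =
        (∏ᶠ v ∈ dividingD 𝔮 ι D, isoPoly v s) *
          ∏ᶠ ψ ∈ HeckeCharacters (typeOf ι₀) 𝔮, (F ψ (s - 1 / 2) *
            (starRingEnd ℂ) (F ψ ((starRingEnd ℂ) s - 1 / 2)))

/-- `L` has at `s = 1` a zero of finite order, at most `C [K : ℚ] (1 + log U(𝔮))`, and at most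
`C [K : ℚ]` if `M` has finitely many units -/
def OrderAtOneLe (C : ℝ) (𝔮 : Ideal (𝓞 M)) (K : Type) [Field K] [NumberField K] (L : ℂ → ℂ) :
    Prop :=
  analyticOrderAt L 1 ≠ ⊤ ∧
  (analyticOrderNatAt L 1 : ℝ) ≤ C * (Module.finrank ℚ K * (1 + Real.log (unitClasses 𝔮))) ∧
  (Finite (𝓞 M)ˣ → (analyticOrderNatAt L 1 : ℝ) ≤ C * Module.finrank ℚ K)

end

/-- the main theorem, written out -/
theorem main :
    (∀ (M : Type) [Field M] [NumberField M], Module.finrank ℚ M = 2 → IsTotallyComplex M →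
      ∀ n : (M →+* ℂ) → ℕ, (∀ φ, n φ = 0 ∨ n (ComplexEmbedding.conjugate φ) = 0) → n ≠ 0 →
      (∀ (𝔮 : Ideal (𝓞 M)), 𝔮 ≠ ⊥ → 𝔮 ≠ ⊤ → ∀ ψ ∈ HeckeCharacters n 𝔮, ∃ F, Continues ψ F) ∧
      ∀ B ε : ℝ, 0 < ε → ∃ X₀ : ℝ, ∀ 𝔮 : Ideal (𝓞 M), X₀ ≤ (Ideal.absNorm 𝔮 : ℝ) →
        (HeckeCharacters n 𝔮).Finite ∧
        (Ideal.absNorm 𝔮 : ℝ) ^ (1 - ε) ≤ (HeckeCharacters n 𝔮).ncard ∧
        ∀ t : ℝ, |t| ≤ B → (1 / 3 - ε) * ((HeckeCharacters n 𝔮).ncard : ℝ) ≤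
          (({ψ ∈ HeckeCharacters n 𝔮 | ∃ F, Continues ψ F ∧
            F (1 / 2 + (t : ℂ) * Complex.I) ≠ 0}.ncard : ℕ) : ℝ)) ∧
    (∀ (M : Type) [Field M] [NumberField M] (ι₀ : GaussianInt →+* 𝓞 M),
    ∃ C : ℝ, ∀ 𝔮 : Ideal (𝓞 M), 𝔮 ≠ ⊥ → 𝔮 ≤ Ideal.span {ι₀ ⟨2, 2⟩} →
    ∀ (K : Type) [Field K] [NumberField K] (ι : 𝓞 M →+* 𝓞 K)
      (art : Ideal (𝓞 M) → (𝓞 K ≃+* 𝓞 K)), IsRayClassField 𝔮 K ι art →
    (HeckeCharacters (typeOf ι₀) 𝔮).Finite ∧
    Module.finrank ℚ K = Module.finrank ℚ M * (HeckeCharacters (typeOf ι₀) 𝔮).ncard ∧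
    ∀ D : 𝓞 K, D ≠ 0 → (∃ d : 𝓞 K, d ^ 4 = D) →
    ∀ a ε : HeightOneSpectrum (𝓞 K) → ℤ,
      (∀ v ∈ exceptional 𝔮 ι D, Possible (Ideal.absNorm v.asIdeal) (a v) (ε v)) →
    ∃ L : ℂ → ℂ, AnalyticOnNhd ℂ L {s : ℂ | 1 / 2 < s.re} ∧
      (∀ s : ℂ, 3 / 2 < s.re → HasProd (factor 𝔮 ι D a ε s) (L s)) ∧
      (exceptional 𝔮 ι D).Finite ∧
      (∃ F : ℂ → ℂ, Differentiable ℂ F ∧ ∀ s : ℂ, 1 / 2 < s.re →
        F s = L s * ∏ᶠ v ∈ exceptional 𝔮 ι D,
          localPoly (a v) (ε v) (Ideal.absNorm v.asIdeal) s) ∧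
      ((∀ v ∈ dividingD 𝔮 ι D, ∀ s : ℂ, 1 / 2 < s.re → isoPoly v s ≠ 0) ∧
        ∀ F : (Ideal (𝓞 M) →*₀ ℂ) → ℂ → ℂ,
          (∀ ψ ∈ HeckeCharacters (typeOf ι₀) 𝔮, Continues ψ (F ψ)) →
          ∀ s : ℂ, 1 / 2 < s.re → L s * ∏ᶠ v ∈ exceptional 𝔮 ι D,
              localPoly (a v) (ε v) (Ideal.absNorm v.asIdeal) s =
            (∏ᶠ v ∈ dividingD 𝔮 ι D, isoPoly v s) *
              ∏ᶠ ψ ∈ HeckeCharacters (typeOf ι₀) 𝔮, (F ψ (s - 1 / 2) *
              (starRingEnd ℂ) (F ψ ((starRingEnd ℂ) s - 1 / 2)))) ∧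
      analyticOrderAt L 1 ≠ ⊤ ∧
      (analyticOrderNatAt L 1 : ℝ) ≤
        C * (Module.finrank ℚ K * (1 + Real.log (unitClasses 𝔮))) ∧
      (Finite (𝓞 M)ˣ → (analyticOrderNatAt L 1 : ℝ) ≤ C * Module.finrank ℚ K)) ∧
    (∀ (M : Type) [Field M] [NumberField M] (ι₀ : GaussianInt →+* 𝓞 M), Module.finrank ℚ M = 2 →
      ∀ ε : ℝ, 0 < ε → ∃ X₀ : ℝ, ∀ 𝔮 : Ideal (𝓞 M), X₀ ≤ (Ideal.absNorm 𝔮 : ℝ) →
      𝔮 ≤ Ideal.span {ι₀ ⟨2, 2⟩} → ∀ (K : Type) [Field K] [NumberField K] (ι : 𝓞 M →+* 𝓞 K)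
      (art : Ideal (𝓞 M) → (𝓞 K ≃+* 𝓞 K)), IsRayClassField 𝔮 K ι art →
      (1 / 3 - ε) * (Module.finrank ℚ K / 2) ≤
        (({ψ ∈ HeckeCharacters (typeOf ι₀) 𝔮 | ∃ F, Continues ψ F ∧
          F (1 / 2) ≠ 0}.ncard : ℕ) : ℝ)) := by
  classical
  have hthird : ∀ (M : Type) [Field M] [NumberField M], Module.finrank ℚ M = 2 →
      IsTotallyComplex M →
      ∀ n : (M →+* ℂ) → ℕ, (∀ φ, n φ = 0 ∨ n (ComplexEmbedding.conjugate φ) = 0) → n ≠ 0 →
      (∀ (𝔮 : Ideal (𝓞 M)), 𝔮 ≠ ⊥ → 𝔮 ≠ ⊤ → ∀ ψ ∈ HeckeCharacters n 𝔮, ∃ F, Continues ψ F) ∧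
      ∀ B ε : ℝ, 0 < ε → ∃ X₀ : ℝ, ∀ 𝔮 : Ideal (𝓞 M), X₀ ≤ (Ideal.absNorm 𝔮 : ℝ) →
        (HeckeCharacters n 𝔮).Finite ∧
        (Ideal.absNorm 𝔮 : ℝ) ^ (1 - ε) ≤ (HeckeCharacters n 𝔮).ncard ∧
        ∀ t : ℝ, |t| ≤ B → (1 / 3 - ε) * ((HeckeCharacters n 𝔮).ncard : ℝ) ≤
          (({ψ ∈ HeckeCharacters n 𝔮 | ∃ F, Continues ψ F ∧
            F (1 / 2 + (t : ℂ) * Complex.I) ≠ 0}.ncard : ℕ) : ℝ) := by
    intro M _ _ h2 htc n hn hn0
    have hX : ∀ 𝔮 : Ideal (𝓞 M), HeckeCharacters n 𝔮 = Pool.Agent.N784.TC.HX n 𝔮 := fun _ => rfl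
    have hn' : Pool.Agent.N784.HC.CTyp n := hn
    refine ⟨fun 𝔮 hbot htop ψ hψ => ?_, fun B ε hε => ?_⟩
    · obtain ⟨h3, h4⟩ := Pool.Agent.N784.TC.HX_ent hn' hn0 hbot htop (by rwa [hX] at hψ)
      exact ⟨_, h3, h4⟩
    · obtain ⟨X₀, hX₀, H⟩ := Pool.Agent.N784.TC.thirdX M h2 hn' hn0 B ε hε
      refine ⟨X₀, fun 𝔮 hN => ?_⟩
      obtain ⟨g1, g2, g3⟩ := H 𝔮 hN
      have hNN : (2 : ℝ) ≤ (Ideal.absNorm 𝔮 : ℝ) := hX₀.trans hN
      have hbot : 𝔮 ≠ ⊥ := by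
        rintro rfl
        rw [Ideal.absNorm_bot] at hNN
        norm_num at hNN
      have htop : 𝔮 ≠ ⊤ := by
        rintro rfl
        rw [Ideal.absNorm_top] at hNN
        norm_num at hNN
      rw [hX]
      refine ⟨g1, g2, fun t ht => (g3 t ht).trans ?_⟩
      have hsub : {ψ ∈ Pool.Agent.N784.TC.HX n 𝔮 |
          Pool.Agent.Y773.IQ.LL M ψ (1 / 2 + (t : ℂ) * Complex.I) ≠ 0} ⊆
          {ψ ∈ Pool.Agent.N784.TC.HX n 𝔮 | ∃ F, Continues ψ F ∧
            F (1 / 2 + (t : ℂ) * Complex.I) ≠ 0} := by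
        rintro ψ ⟨h5, h6⟩
        obtain ⟨h3, h4⟩ := Pool.Agent.N784.TC.HX_ent hn' hn0 hbot htop h5
        exact ⟨h5, _, ⟨h3, h4⟩, h6⟩
      exact_mod_cast Set.ncard_le_ncard hsub (g1.subset fun ψ hψ => hψ.1)
  refine ⟨hthird, ?_, ?_⟩
  · intro M _ _ ι₀
    obtain ⟨C₀, hC₀, H0⟩ := Pool.Agent.N784.TC.ran2 M ι₀
    have hcu : 0 ≤ Real.log (Nat.card (𝓞 M)ˣ : ℝ) := Real.log_natCast_nonneg _
    refine ⟨C₀ * (1 + Real.log (Nat.card (𝓞 M)ˣ : ℝ)), fun 𝔮 hbot hle K _ _ ι art hK => ?_⟩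
    have hK' : Pool.Agent.N784.CZ.IsRCF 𝔮 K ι art :=
      ⟨hK.mul, hK.invariants, hK.kernel, hK.unramified, hK.frobenius⟩
    obtain ⟨hXfin, hdeg, F, hF, hprod, hordF, hle2, hfac⟩ := H0 𝔮 hbot hle K ι art hK'
    refine ⟨hXfin, hdeg, fun D hD hd a ε hpos => ?_⟩
    obtain ⟨d, hd⟩ := hd
    obtain ⟨x, hx, hx0⟩ := Submodule.exists_mem_ne_zero_of_ne_bot hbot
    have hιx : ι x ≠ 0 := fun h => hx0 (Pool.Agent.N784.CZ.ran_inj ι (by rw [h, map_zero]))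
    have hfin : (exceptional 𝔮 ι D).Finite := by
      refine ((Pool.Agent.W164.RC.places_finite hιx).subset ?_).union
        (Pool.Agent.W164.RC.places_finite hD)
      intro v hv
      exact hv (Ideal.mem_map_of_mem ι hx)
    set S : Finset (HeightOneSpectrum (𝓞 K)) := hfin.toFinset with hS
    have hmemS : ∀ v, v ∈ S ↔ v ∈ exceptional 𝔮 ι D := fun v => by rw [hS]; simp
    have hn2 : ∀ v : HeightOneSpectrum (𝓞 K), 2 ≤ Ideal.absNorm v.asIdeal :=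
      fun v => Pool.Agent.H921R2.TatePole.two_le_nm v
    have hlp : ∀ (a ε : ℤ) (n : ℕ) (s : ℂ), localPoly a ε n s = Pool.Agent.W164.RC.lpoly a ε n s :=
      fun _ _ _ _ => rfl
    -- places over two
    have htwo : ∀ v : HeightOneSpectrum (𝓞 K), ¬ 𝔮.map ι ≤ v.asIdeal →
        (Pool.Agent.H921R2.TatePole.below v : ℕ) ≠ 2 :=
      fun v hv hb => hv (Pool.Agent.N833.CZ.le_of_two hle v hb)
    -- the numerator at the exceptional places not dividing `𝔮`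
    set g : HeightOneSpectrum (𝓞 K) → ℂ → ℂ := fun v s =>
      if 𝔮.map ι ≤ v.asIdeal then 1
      else Pool.Agent.W164.RC.lpoly (Pool.Agent.W164.RC.tr v) 1 (Ideal.absNorm v.asIdeal) s with hg
    have hgdiff : ∀ v, Differentiable ℂ (g v) := by
      intro v
      rw [hg]
      by_cases h : 𝔮.map ι ≤ v.asIdeal
      · simp only [if_pos h]
        exact differentiable_const _
      · simp only [if_neg h]
        exact Pool.Agent.W164.RC.lpoly_diff _ _ (hn2 v)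
    have hgne : ∀ v (s : ℂ), 1 / 2 < s.re → g v s ≠ 0 := by
      intro v s hs
      rw [hg]
      by_cases h : 𝔮.map ι ≤ v.asIdeal
      · simp only [if_pos h]
        exact one_ne_zero
      · simp only [if_neg h]
        exact Pool.Agent.W164.RC.lpoly_ne (hn2 v) (Pool.Agent.W164.RC.tr_poss v (htwo v h)) hs
    set P : HeightOneSpectrum (𝓞 K) → ℂ → ℂ := fun v s =>
      Pool.Agent.W164.RC.lpoly (a v) (ε v) (Ideal.absNorm v.asIdeal) s with hP
    have hPdiff : ∀ v, Differentiable ℂ (P v) := fun v => Pool.Agent.W164.RC.lpoly_diff _ _ (hn2 v)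
    have hPne : ∀ v ∈ S, ∀ s : ℂ, 1 / 2 < s.re → P v s ≠ 0 := by
      intro v hv s hs
      exact Pool.Agent.W164.RC.lpoly_ne (hn2 v) (hpos v ((hmemS v).1 hv)) hs
    set R : ℂ → ℂ := fun s => ∏ v ∈ S, (g v s * (P v s)⁻¹) with hR
    have hRan : ∀ s : ℂ, 1 / 2 < s.re → AnalyticAt ℂ R s := by
      intro s hs
      rw [hR]
      apply Finset.analyticAt_fun_prod
      intro v hv
      exact ((hgdiff v).analyticAt s).mul (((hPdiff v).analyticAt s).inv (hPne v hv s hs))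
    have hRne : ∀ s : ℂ, 1 / 2 < s.re → R s ≠ 0 := by
      intro s hs
      rw [hR]
      simp only
      rw [Finset.prod_ne_zero_iff]
      intro v hv
      exact mul_ne_zero (hgne v s hs) (inv_ne_zero (hPne v hv s hs))
    have hord : analyticOrderAt (fun s => F s * R s) 1 = analyticOrderAt F 1 :=
      Pool.Agent.W164.RC.order_mul_ne (hF.analyticAt 1) (hRan 1 (by norm_num)) (hRne 1 (by norm_num))
    have hordN : analyticOrderNatAt (fun s => F s * R s) 1 = analyticOrderNatAt F 1 := by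
      unfold analyticOrderNatAt
      rw [hord]
    refine ⟨fun s => F s * R s, ?_, ?_, hfin, ?_, ?_, ?_, ?_, ?_⟩
    · intro s hs
      exact (hF.analyticAt s).mul (hRan s hs)
    · intro s hs
      have hs' : 1 / 2 < s.re := by linarith
      have h3 : HasProd (fun v : HeightOneSpectrum (𝓞 K) =>
          if v ∈ S then g v s * (P v s)⁻¹ else 1) (R s) := by
        have h4 : R s = ∏ v ∈ S, (if v ∈ S then g v s * (P v s)⁻¹ else 1) := by
          rw [hR]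
          exact Finset.prod_congr rfl fun v hv => by rw [if_pos hv]
        rw [h4]
        apply hasProd_prod_of_ne_finset_one
        intro v hv
        rw [if_neg hv]
      have h5 := (hprod s hs).mul h3
      refine h5.congr_fun ?_
      intro v
      unfold factor
      by_cases hv : v ∈ exceptional 𝔮 ι D
      · rw [if_pos hv, if_pos ((hmemS v).2 hv), hlp]
        have hg1 := hgne v s hs'
        by_cases hvq : 𝔮.map ι ≤ v.asIdeal
        · rw [if_pos hvq]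
          have : g v s = 1 := by rw [hg]; simp only [if_pos hvq]
          rw [this, one_mul, one_mul]
        · rw [if_neg hvq, Pool.Agent.W164.RC.eulerFactor_lpoly]
          have : g v s = Pool.Agent.W164.RC.lpoly (Pool.Agent.W164.RC.tr v) 1
              (Ideal.absNorm v.asIdeal) s := by rw [hg]; simp only [if_neg hvq]
          rw [← this, ← mul_assoc, inv_mul_cancel₀ hg1, one_mul]
      · have hvS : v ∉ S := fun h => hv ((hmemS v).1 h)
        have hvq : ¬ 𝔮.map ι ≤ v.asIdeal := fun h => hv (Or.inl h)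
        have hvD : D ∉ v.asIdeal := fun h => hv (Or.inr h)
        rw [if_neg hv, if_neg hvS, if_neg hvq, mul_one, Pool.Agent.W164.RC.eulerFactor_lpoly, hlp]
        have hmax : v.asIdeal.IsMaximal := v.isPrime.isMaximal v.ne_bot
        let _ : Field (𝓞 K ⧸ v.asIdeal) := Ideal.Quotient.field v.asIdeal
        have hd4 : (Ideal.Quotient.mk v.asIdeal d) ^ 4 = Ideal.Quotient.mk v.asIdeal D := by
          rw [← map_pow, hd]
        have hd0 : Ideal.Quotient.mk v.asIdeal d ≠ 0 := by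
          intro h0
          rw [h0, zero_pow (by norm_num)] at hd4
          apply hvD
          rw [← Ideal.Quotient.eq_zero_iff_mem]
          exact hd4.symm
        have hct := Pool.Agent.W164.RC.card_twist (Ideal.Quotient.mk v.asIdeal d) hd0
        rw [hd4] at hct
        rw [hct]
        rfl
    · refine ⟨fun s => F s * ∏ v ∈ S, g v s, ?_, ?_⟩
      · exact hF.mul (Differentiable.fun_finsetProd fun v _ => hgdiff v)
      · intro s hs
        have h3 : ∏ᶠ v ∈ exceptional 𝔮 ι D, localPoly (a v) (ε v) (Ideal.absNorm v.asIdeal) s =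
            ∏ v ∈ S, P v s := by
          rw [← finprod_mem_coe_finset]
          have : (S : Set (HeightOneSpectrum (𝓞 K))) = exceptional 𝔮 ι D := by
            ext v
            exact hmemS v
          rw [this]
          rfl
        rw [h3]
        show F s * ∏ v ∈ S, g v s = F s * R s * ∏ v ∈ S, P v s
        rw [hR, mul_assoc, ← Finset.prod_mul_distrib]
        congr 1
        refine Finset.prod_congr rfl fun v hv => ?_
        rw [mul_assoc, inv_mul_cancel₀ (hPne v hv s hs), mul_one]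
    · refine ⟨fun v hv s hs => ?_, fun F' hF' s hs => ?_⟩
      · exact Pool.Agent.W164.RC.lpoly_ne (hn2 v)
          (Pool.Agent.W164.RC.tr_poss v (htwo v hv.2)) hs
      have h3 : ∏ᶠ v ∈ exceptional 𝔮 ι D, localPoly (a v) (ε v) (Ideal.absNorm v.asIdeal) s =
          ∏ v ∈ S, P v s := by
        rw [← finprod_mem_coe_finset]
        have : (S : Set (HeightOneSpectrum (𝓞 K))) = exceptional 𝔮 ι D := by
          ext v
          exact hmemS v
        rw [this]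
        rfl
      have h4 : ∏ᶠ ψ ∈ HeckeCharacters (typeOf ι₀) 𝔮, (F' ψ (s - 1 / 2) *
          (starRingEnd ℂ) (F' ψ ((starRingEnd ℂ) s - 1 / 2))) = F s := by
        rw [hfac s]
        refine finprod_mem_congr rfl fun ψ hψ => ?_
        obtain ⟨h5, h6⟩ := hF' ψ hψ
        rw [Pool.Agent.Y773.IQ.LL_eq M h5 h6]
      have h7 : ∏ᶠ v ∈ dividingD 𝔮 ι D, isoPoly v s = ∏ v ∈ S, g v s := by
        have h8 : dividingD 𝔮 ι D = ((S.filter (fun v => ¬ 𝔮.map ι ≤ v.asIdeal) :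
            Finset (HeightOneSpectrum (𝓞 K))) : Set (HeightOneSpectrum (𝓞 K))) := by
          ext v
          rw [Finset.mem_coe, Finset.mem_filter, hmemS]
          constructor
          · rintro ⟨h8, h9⟩
            exact ⟨Or.inr h8, h9⟩
          · rintro ⟨h8 | h8, h9⟩
            · exact absurd h8 h9
            · exact ⟨h8, h9⟩
        rw [h8, finprod_mem_coe_finset, Finset.prod_filter]
        refine Finset.prod_congr rfl fun v _ => ?_
        by_cases h9 : 𝔮.map ι ≤ v.asIdeal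
        · have h10 : g v s = 1 := by rw [hg]; simp only [if_pos h9]
          rw [if_neg (not_not.mpr h9), h10]
        · have h10 : g v s = Pool.Agent.W164.RC.lpoly (Pool.Agent.W164.RC.tr v) 1
              (Ideal.absNorm v.asIdeal) s := by rw [hg]; simp only [if_neg h9]
          rw [if_pos h9, h10]
          rfl
      rw [h3, h4, h7]
      show F s * R s * ∏ v ∈ S, P v s = (∏ v ∈ S, g v s) * F s
      rw [hR, mul_assoc, ← Finset.prod_mul_distrib, mul_comm (F s)]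
      congr 1
      refine Finset.prod_congr rfl fun v hv => ?_
      rw [mul_assoc, inv_mul_cancel₀ (hPne v hv s hs), mul_one]
    · rw [hord]
      exact hordF 1
    · rw [hordN]
      refine hle2.trans ?_
      have hUn : (1 : ℝ) ≤ (Pool.Agent.N784.AD.Un 𝔮 : ℝ) := by
        exact_mod_cast Pool.Agent.N784.AD.one_le_Un hbot
      have hlU : 0 ≤ Real.log (Pool.Agent.N784.AD.Un 𝔮) := Real.log_nonneg hUn
      show C₀ * (Module.finrank ℚ K * (1 + Real.log (Pool.Agent.N784.AD.Un 𝔮))) ≤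
        C₀ * (1 + Real.log (Nat.card (𝓞 M)ˣ : ℝ)) *
          (Module.finrank ℚ K * (1 + Real.log (Pool.Agent.N784.AD.Un 𝔮)))
      refine mul_le_mul_of_nonneg_right ?_ (by positivity)
      nlinarith
    · intro hfu
      rw [hordN]
      refine hle2.trans ?_
      have hUn : (1 : ℝ) ≤ (Pool.Agent.N784.AD.Un 𝔮 : ℝ) := by
        exact_mod_cast Pool.Agent.N784.AD.one_le_Un hbot
      have hU2 : (Pool.Agent.N784.AD.Un 𝔮 : ℝ) ≤ Nat.card (𝓞 M)ˣ := by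
        have h1 : Pool.Agent.N784.AD.Un 𝔮 ≤ Nat.card (𝓞 M)ˣ := by
          unfold Pool.Agent.N784.AD.Un
          rw [← Set.image_univ]
          refine (Set.ncard_image_le Set.finite_univ).trans ?_
          rw [Set.ncard_univ]
        exact_mod_cast h1
      have h2 : Real.log (Pool.Agent.N784.AD.Un 𝔮) ≤ Real.log (Nat.card (𝓞 M)ˣ) :=
        Real.log_le_log (by linarith) hU2
      calc C₀ * (Module.finrank ℚ K * (1 + Real.log (Pool.Agent.N784.AD.Un 𝔮)))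
          ≤ C₀ * (Module.finrank ℚ K * (1 + Real.log (Nat.card (𝓞 M)ˣ))) := by gcongr
        _ = _ := by ring

  · intro M _ _ ι₀ h2 ε hε
    obtain ⟨-, H⟩ := hthird M h2 (Pool.Agent.N784.TC.totallyComplex ι₀) (typeOf ι₀)
      (Pool.Agent.N784.CZ.tyi_ctyp ι₀) (Pool.Agent.N784.CZ.tyi_ne ι₀)
    obtain ⟨X₀, H1⟩ := H 0 ε hε
    obtain ⟨C₀, hC₀, H0⟩ := Pool.Agent.N784.TC.ran2 M ι₀
    refine ⟨max X₀ 1, fun 𝔮 hN hle K _ _ ι art hK => ?_⟩
    have hbot : 𝔮 ≠ ⊥ := by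
      rintro rfl
      have := (le_max_right _ _).trans hN
      rw [Ideal.absNorm_bot] at this
      norm_num at this
    have hK' : Pool.Agent.N784.CZ.IsRCF 𝔮 K ι art :=
      ⟨hK.mul, hK.invariants, hK.kernel, hK.unramified, hK.frobenius⟩
    obtain ⟨-, hdeg, -⟩ := H0 𝔮 hbot hle K ι art hK'
    obtain ⟨-, -, g3⟩ := H1 𝔮 ((le_max_left _ _).trans hN)
    have g4 := g3 0 (by simp)
    have e1 : (1 / 2 : ℂ) + ((0 : ℝ) : ℂ) * Complex.I = 1 / 2 := by simp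
    rw [e1] at g4
    have e2 : ((Module.finrank ℚ K : ℕ) : ℝ) / 2 = ((HeckeCharacters (typeOf ι₀) 𝔮).ncard : ℝ) := by
      have h3 : Module.finrank ℚ K = 2 * (HeckeCharacters (typeOf ι₀) 𝔮).ncard := by
        rw [← h2]; exact hdeg
      rw [h3]
      push_cast
      ring
    rw [e2]
    exact g4

/-- **Main theorem.**

(1) `M` imaginary quadratic, `n ≠ 0` an infinity type (`n φ = 0` for one of the two embeddings): every
`L(s, ψ)`, `ψ` a Hecke character of type `n` modulo `𝔮`, has an entire continuation, and for all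
`ε > 0`, `B`, all `𝔮` with `N(𝔮) ≥ X₀` and all `|t| ≤ B`, at least `(1/3 - ε)` times their number
(which is finite and at least `N(𝔮)^(1-ε)`) have `L(1/2 + it, ψ) ≠ 0`.

(2) `M` a number field containing `i`: `L(E_D/K, s)` over the narrow ray class fields `K` of `M` whose
modulus `𝔮` is divisible by `2 + 2i`, with any possible Euler factors at the places dividing `𝔮 D`,
is analytic for `Re s > 1/2`, it is (up to finitely many local polynomials) entire and the product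
over the `[K : M]` Hecke characters modulo `𝔮` of the type of `E` of `L(s-1/2, ψ) L(s-1/2, ψ̄)`, and its
order at `s = 1` is finite and at most `C [K : ℚ] (1 + log U(𝔮))`; if `M` has finitely many units,
at most `C [K : ℚ]`.

(3) If `[M : ℚ] = 2` (that is, `M = ℚ(i)`), at least `(1/3 - ε) [K : M]` of the `ψ` have
`L(1/2, ψ) ≠ 0`, so that these factors do not vanish at `s = 1`, as soon as `N(𝔮) ≥ X₀(ε)`. -/
theorem result :
    (∀ (M : Type) [Field M] [NumberField M], Module.finrank ℚ M = 2 → IsTotallyComplex M →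
      ∀ n : (M →+* ℂ) → ℕ, (∀ φ, n φ = 0 ∨ n (ComplexEmbedding.conjugate φ) = 0) → n ≠ 0 →
        ThirdNonzero n) ∧
    (∀ (M : Type) [Field M] [NumberField M] (ι₀ : GaussianInt →+* 𝓞 M),
      ∃ C : ℝ, ∀ 𝔮 : Ideal (𝓞 M), 𝔮 ≠ ⊥ → 𝔮 ≤ Ideal.span {ι₀ ⟨2, 2⟩} →
      ∀ (K : Type) [Field K] [NumberField K] (ι : 𝓞 M →+* 𝓞 K)
        (art : Ideal (𝓞 M) → (𝓞 K ≃+* 𝓞 K)), IsRayClassField 𝔮 K ι art →
      (HeckeCharacters (typeOf ι₀) 𝔮).Finite ∧
      Module.finrank ℚ K = Module.finrank ℚ M * (HeckeCharacters (typeOf ι₀) 𝔮).ncard ∧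
      ∀ D : 𝓞 K, D ≠ 0 → (∃ d : 𝓞 K, d ^ 4 = D) → ∀ a ε : HeightOneSpectrum (𝓞 K) → ℤ,
        (∀ v ∈ exceptional 𝔮 ι D, Possible (Ideal.absNorm v.asIdeal) (a v) (ε v)) →
      ∃ L : ℂ → ℂ, IsLFunction 𝔮 ι D a ε L ∧ Factorises ι₀ 𝔮 ι D a ε L ∧
        OrderAtOneLe C 𝔮 K L) ∧
    (∀ (M : Type) [Field M] [NumberField M] (ι₀ : GaussianInt →+* 𝓞 M), Module.finrank ℚ M = 2 →
      ∀ ε : ℝ, 0 < ε → ∃ X₀ : ℝ, ∀ 𝔮 : Ideal (𝓞 M), X₀ ≤ (Ideal.absNorm 𝔮 : ℝ) →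
      𝔮 ≤ Ideal.span {ι₀ ⟨2, 2⟩} → ∀ (K : Type) [Field K] [NumberField K] (ι : 𝓞 M →+* 𝓞 K)
        (art : Ideal (𝓞 M) → (𝓞 K ≃+* 𝓞 K)), IsRayClassField 𝔮 K ι art →
      (1 / 3 - ε) * (Module.finrank ℚ K / 2) ≤
        (((nonzeroAt (typeOf ι₀) 𝔮 0).ncard : ℕ) : ℝ)) := by
  obtain ⟨h1, h2, h3⟩ := main
  refine ⟨h1, fun M _ _ ι₀ => ?_, fun M _ _ ι₀ hM ε hε => ?_⟩
  · obtain ⟨C, hC⟩ := h2 M ι₀
    refine ⟨C, fun 𝔮 hbot hle K _ _ ι art hK => ?_⟩
    obtain ⟨g1, g2, g3⟩ := hC 𝔮 hbot hle K ι art hK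
    refine ⟨g1, g2, fun D hD hd a ε hpos => ?_⟩
    obtain ⟨L, k1, k2, k3, k4, k5, k6, k7, k8⟩ := g3 D hD hd a ε hpos
    exact ⟨L, ⟨k1, k2, k3, k4⟩, k5, k6, k7, k8⟩
  · obtain ⟨X₀, hX⟩ := h3 M ι₀ hM ε hε
    refine ⟨X₀, fun 𝔮 hN hle K _ _ ι art hK => ?_⟩
    have h4 := hX 𝔮 hN hle K ι art hK
    have e1 : (1 / 2 : ℂ) + ((0 : ℝ) : ℂ) * Complex.I = 1 / 2 := by simp
    unfold nonzeroAt
    rw [e1]
    exact h4

end Pool.Agent.Results.MP_ae0bd0_nt.CentralValuesRayClass
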