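import Pool.Agent.Results.MP_cd906c_nt.MultiquadraticX49
import Pool.Agent.N869.QD.Fin

/-!
# The rank conjecture of Birch and Swinnerton-Dyer for the characters of the elementary 2-extensions of
# `ℚ(√-7)` unramified outside a given ideal

Let `K = ℚ(√-7)`, let `E` be the curve `y² + x y = x³ - x² - 2 x - 1` of conductor `49`. Let `𝔣` be a
squarefree ideal of `K` prime to `14`, and let `K(𝔣)` be the field generated by the square roots of all
the squarefree integers `D` of `K`, congruent to `1` modulo `4`, that divide `𝔣`: the maximal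
elementary abelian 2-extension of `K` of this kind that is unramified outside `𝔣`, of degree about
`2 ^ ω(𝔣)`. We prove that for almost every fixed `𝔣` (ordered by the norm) the quadratic characters of the
Galois group of `K(𝔣)` over `K` behave like independent random variables:

* the proportion of the `D ≠ 1` that divide `𝔣` for which the twist `E_D` has finitely many points over `K`
  and a Tate-Shafarevich group without elements of order two is as close as we like to
  `c2 = ∏_{i ≥ 1} (1 - 2^(-i)) = 0.288...` (case `n = 1`);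
* more generally, for the tuples `(d_1, …, d_n)` of divisors of `𝔣`, independent modulo squares, and
  every set `𝒯` of nonempty subsets `T` of `{1, …, n}`, the proportion of the tuples for which all
  the twists by `∏_{i ∈ T} d_i`, `T` in `𝒯`, have this property is as close as we like to `c2 ^ #𝒯`;
* if `𝒯` is the set of all `2 ^ n - 1` nonempty subsets, then for the field
  `L = K(√d_1, …, √d_n)` inside `K(𝔣)` the group `E(L)` is finite, the `L`-series of `E` over `L` has a
  meromorphic continuation and does not vanish at `s = 1`, and the 2-primary part of `Ш(E/L)` is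
  finite and killed by `2 ^ n`. So the rank conjecture holds for `E` over a proportion at least
  `c2 ^ (2 ^ n - 1) - δ` of the subfields of `K(𝔣)` of degree `2 ^ n` over `K`, for every `n ≥ 1` and every
  `δ > 0`, for almost every `𝔣`.

Proof. `MP_cd906c_nt/MultiquadraticX49` reduces the statement on `L` to the twists over `K`, and
`MP_e996df_nt/TwoPartTwistsX49` reduces these to the kernels of matrices of quadratic symbols. A tuple of
divisors of `𝔣` is a colouring of the prime divisors of `𝔣` by all the subsets of `{1, …, n}`. The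
proportion of the good colourings of `𝔣` is a random variable in `𝔣`; its first and second moments are
averages over all `𝔣` and all colourings of the joint event for a family of systems of colours.
For a fixed random colouring of all primes of `K` the joint moments of the kernels of the
matrices are computed by the large sieve for the quadratic symbols over `K` in boxes of large primes, and by
an exact count of the labellings (`Pool/Agent/N869/QT`, `Pool/Agent/N869/QD`).
-/

set_option autoImplicit false

namespace Pool.Agent.Results.MP_ae0bd0_nt.DivisorFields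

open NumberField IsDedekindDomain
open Pool.Agent.Results.MP_cd906c_nt.MultiquadraticX49 (curve InClass NoSelmer AllNoSelmer
  OverExtensions Independent c2)

/-- The conductors of norm at most `X`: the squarefree ideals of `𝓞 K` prime to `14`. -/
def conductors (K : Type) [Field K] [NumberField K] (X : ℕ) : Set (Ideal (𝓞 K)) :=
  {𝔣 | Squarefree 𝔣 ∧ IsCoprime 𝔣 (Ideal.span {14}) ∧ Ideal.absNorm 𝔣 ≤ X}

/-- The tuples of divisors of `𝔣`: the `d i` are squarefree, congruent to `1` modulo `4` and prime to
`√-7`, no nonempty product of some of them is a square in `K`, and every `d i` divides `𝔣`. -/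
def divisorTuples {K : Type} [Field K] [NumberField K] (a : 𝓞 K) (n : ℕ) (𝔣 : Ideal (𝓞 K)) :
    Set (Fin n → 𝓞 K) :=
  {d | (∀ i, InClass a (d i)) ∧ Independent d ∧ ∀ i, 𝔣 ≤ Ideal.span {d i}}

/-- `NoSelmer` (that is, `E_N(K)` is finite and `Ш(E_N/K)` has no element of order two) for the twists by
the products over the sets `T` in `𝒯` of the `d i`. -/
def Good {K : Type} [Field K] [NumberField K] (a : 𝓞 K) {n : ℕ} (𝒯 : Finset (Finset (Fin n)))
    (d : Fin n → 𝓞 K) : Prop :=
  ∀ T ∈ 𝒯, ∀ N c : 𝓞 K, InClass a N → c ≠ 0 → ∏ i ∈ T, d i = N * c ^ 2 →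
    NoSelmer (curve (N : K))

/-- There are tuples of divisors of `𝔣`, finitely many, and the proportion of those that are good for the
sets in `𝒯` differs from `p` by at most `δ`. -/
def Close {K : Type} [Field K] [NumberField K] (a : 𝓞 K) {n : ℕ} (𝒯 : Finset (Finset (Fin n)))
    (p δ : ℝ) (𝔣 : Ideal (𝓞 K)) : Prop :=
  (divisorTuples a n 𝔣).Finite ∧ 0 < (divisorTuples a n 𝔣).ncard ∧
    |({d ∈ divisorTuples a n 𝔣 | Good a 𝒯 d}.ncard : ℝ) / ((divisorTuples a n 𝔣).ncard : ℝ) - p| ≤ δ

section proof

open Filter
open Pool.Agent.N869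
open Pool.Agent.Results.MP_e996df_nt

variable {K : Type} [Field K] [NumberField K]

lemma good_iff {a : 𝓞 K} (ha : a ^ 2 = a - 2) (hK : Module.finrank ℚ K = 2) {n : ℕ}
    (𝒯 : Finset (Finset (Fin n))) (d : Fin n → 𝓞 K) : Good a 𝒯 d ↔ QT.TRK.goK a 𝒯 d :=
  forall_congr' fun _ => forall_congr' fun _ => forall_congr' fun _ => forall_congr' fun _ =>
    forall_congr' fun hN => forall_congr' fun _ => forall_congr' fun _ =>
      (MP_cd906c_nt.MultiquadraticX49.twoPart_iff ha hK hN).symm

open scoped Classical in
/-- the twist by `1` -/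
lemma good_one {a : 𝓞 K} (ha : a ^ 2 = a - 2) (hK : Module.finrank ℚ K = 2) {N c : 𝓞 K}
    (hN : InClass a N) (hc : c ≠ 0) (h : 1 = N * c ^ 2) : NoSelmer (curve (N : K)) := by
  obtain ⟨e, hea, hef⟩ := TwoPartTwistsX49.exists_e ha hK
  rw [← MP_cd906c_nt.MultiquadraticX49.twoPart_iff ha hK hN]
  have h1 : e.symm N = 1 := by
    refine Pool.Agent.R426.QM.Cls.uniq (c := e.symm c) (c' := 1)
      ((TwoPartTwistsX49.cls_e e hef _).1 (by rw [e.apply_symm_apply]; exact hN))
      Pool.Agent.R426.QM.Cls.cls_one ((map_ne_zero_iff _ e.symm.injective).2 hc) one_ne_zero ?_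
    have h2 := congrArg e.symm h
    rw [map_one, map_mul, map_pow] at h2
    rw [← h2]
    ring
  have h2 := (TwoPartTwistsX49.good_e e ha hK hea hef (e.symm N)).2 ⟨(TwoPartTwistsX49.cls_e e hef
    _).1 (by rw [e.apply_symm_apply]; exact hN), by
      have h3 := (Pool.Agent.R426.QK.PS_prod (S := ∅) (fun _ h => absurd h (Finset.notMem_empty _))).2
      rw [Finset.prod_empty] at h3
      rw [h1, h3]
      intro v _ π hπ
      exact absurd hπ (Finset.notMem_empty π)⟩
  rw [e.apply_symm_apply] at h2
  exact h2.2

/-- the extensions -/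
theorem ext_good {a : 𝓞 K} (ha : a ^ 2 = a - 2) (hK : Module.finrank ℚ K = 2) {n : ℕ}
    {d : Fin n → 𝓞 K} (h1 : ∀ i, InClass a (d i)) (h2 : Independent d)
    (hg : Good a (Finset.univ.filter fun T => T.Nonempty) d) : OverExtensions d 1 := by
  classical
  have hone : InClass a 1 := by
    obtain ⟨e, hea, hef⟩ := TwoPartTwistsX49.exists_e ha hK
    have := (TwoPartTwistsX49.cls_e e hef 1).2 Pool.Agent.R426.QM.Cls.cls_one
    rw [map_one] at this
    exact this
  refine MP_cd906c_nt.MultiquadraticX49.extension ha hK d h1 h2 hone (fun i => isCoprime_one_left) ?_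
  intro T N c hN hc hT
  rw [one_mul] at hT
  rcases T.eq_empty_or_nonempty with rfl | hT'
  · rw [Finset.prod_empty] at hT
    exact good_one ha hK hN hc hT
  · exact hg T (Finset.mem_filter.2 ⟨Finset.mem_univ _, hT'⟩) N c hN hc hT

end proof

/-- **Main theorem.** Let `K = ℚ(√-7)`, that is, a number field of degree two with an integer `a` such
that `a² = a - 2`, and let `n ≥ 1`.
(1) For every tuple of divisors of `𝔣` that is good for all the `2 ^ n - 1` nonempty subsets of
`{1, …, n}` (a condition on the side of algebra only, on the twists of `E` over `K`), and for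
`L = K(√d_1, …, √d_n)`, of degree `2 ^ n` over `K`: the group `E(L)` is finite, the rank
conjecture holds for `E` over `L`, a product of `L(E/L, s)` and finitely many Euler polynomials is entire and
not zero at `1`, and the 2-primary part of `Ш(E/L)` is finite and killed by `2 ^ n`.
(2) For every set `𝒯` of nonempty subsets of `{1, …, n}` and every `δ > 0`, for almost all conductors `𝔣`,
ordered by the norm, the proportion of the tuples of divisors of `𝔣` that are good for `𝒯` differs from
`c2 ^ #𝒯` by at most `δ`, where `0.288 < c2 < 0.289`. In particular this holds with the exponent `2 ^ n - 1`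
for the condition in (1). There are at least `c X` conductors of norm at most `X`. -/
theorem result (K : Type) [Field K] [NumberField K] (a : 𝓞 K) (ha : a ^ 2 = a - 2)
    (hK : Module.finrank ℚ K = 2) (n : ℕ) (hn : 1 ≤ n) :
    (∀ (𝔣 : Ideal (𝓞 K)), ∀ d ∈ divisorTuples a n 𝔣,
      Good a (Finset.univ.filter fun T => T.Nonempty) d → OverExtensions d 1) ∧
    (∀ 𝒯 : Finset (Finset (Fin n)), (∀ T ∈ 𝒯, T.Nonempty) → ∀ δ : ℝ, 0 < δ →
      Filter.Tendsto (fun X : ℕ =>
        ({𝔣 ∈ conductors K X | Close a 𝒯 (c2 ^ 𝒯.card) δ 𝔣}.ncard : ℝ) /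
          ((conductors K X).ncard : ℝ)) Filter.atTop (nhds 1)) ∧
    (Finset.univ.filter fun T : Finset (Fin n) => T.Nonempty).card = 2 ^ n - 1 ∧
    0.288 < c2 ∧ c2 < 0.289 ∧
    ∃ c : ℝ, 0 < c ∧ ∀ᶠ X : ℕ in Filter.atTop, c * X ≤ ((conductors K X).ncard : ℝ) := by
  obtain ⟨-, -, -, h3, h4⟩ := Pool.Agent.R426.QK.MOM.t_C2
  refine ⟨fun 𝔣 d hd hg => ext_good ha hK hd.1 hd.2.1 hg, fun 𝒯 h𝒯 δ hδ => ?_, ?_, h3, h4, ?_⟩
  · have h := Pool.Agent.N869.QD.TRKD.main Pool.Agent.N869.QD.t_FINDR Pool.Agent.N869.QT.t_LOWA ha hK
      hn 𝒯 h𝒯 hδ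
    refine h.congr fun X => ?_
    have e : {𝔣 ∈ conductors K X | Close a 𝒯 (c2 ^ 𝒯.card) δ 𝔣} =
        {𝔣 ∈ Pool.Agent.N869.QT.TRK.condK K X | (Pool.Agent.N869.QD.TRKD.tupD a n 𝔣).Finite ∧
          0 < (Pool.Agent.N869.QD.TRKD.tupD a n 𝔣).ncard ∧
          |({d ∈ Pool.Agent.N869.QD.TRKD.tupD a n 𝔣 | Pool.Agent.N869.QT.TRK.goK a 𝒯 d}.ncard : ℝ) /
            ((Pool.Agent.N869.QD.TRKD.tupD a n 𝔣).ncard : ℝ) -
              Pool.Agent.R426.QK.c2 ^ 𝒯.card| ≤ δ} := by
      ext 𝔣
      refine and_congr Iff.rfl ?_
      unfold Close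
      simp only [good_iff ha hK]
      exact Iff.rfl
    rw [e]
    rfl
  · have h1 : (Finset.univ.filter fun T : Finset (Fin n) => T.Nonempty) = Finset.univ.erase ∅ := by
      ext T
      simp [Finset.nonempty_iff_ne_empty]
    rw [h1, Finset.card_erase_of_mem (Finset.mem_univ _), Finset.card_univ, Fintype.card_finset,
      Fintype.card_fin]
  · exact Pool.Agent.N869.QT.TRK.cond_low Pool.Agent.N869.QT.t_LOWA ha hK

end Pool.Agent.Results.MP_ae0bd0_nt.DivisorFields
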