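import Pool.Agent.N843.TT.FourInf

/-!
# The rank conjecture for the twists of `X_0(49)` in multiquadratic extensions of `ℚ(√-7)`: exactly four
# points, the next field, and infinite towers for several curves at once

`K = ℚ(√-7)`, that is, a number field of degree two with an integer `a` such that `a² = a - 2`. For `D` in
`𝓞 K` let `E_D` be the quadratic twist by `D` of `y² + x y = x³ - x² - 2 x - 1` (conductor `49`). Let
`d_1, …, d_n` be squarefree integers of `K`, congruent to `1` modulo `4` and prime to `√-7`, independent
modulo squares, and `L = K(√d_1, …, √d_n)`, of degree `2 ^ n` over `K` (`n = 0`: `L = K`). The curve `E_m`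
is called good over `L` if `m` is squarefree, `≡ 1 mod 4`, prime to `√-7` and the `d_i`, and the twists
over `K` by all the `2 ^ n` products of `m` with some of the `d_i` have finitely many points over `K` and
no element of order two in `Ш` (a condition on the side of algebra only).

* If `E_m` is good over `L` then `E_m(L)` has **exactly four** elements (the points of order two, defined
  over `K`), the rank conjecture holds for `E_m` over `L`, `L(E_m/L, s)` times finitely many Euler
  polynomials is entire and not zero at `1`, and the 2-primary part of `Ш(E_m/L)` is finite and killed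
  by `2 ^ n`.
* Fixed field, random twists: for every `L` and `r` multipliers `m` the `D` for which all the `E_{m D}` are
  good over `L` have the natural density **exactly** `c2 ^ (r 2 ^ n)`, `c2 = ∏_{i ≥ 1} (1 - 2^(-i)) = 0.288…`,
  among all the squarefree `D ≡ 1 mod 4` prime to `√-7`, the `d_i` and the `m`, ordered by the norm.
* Fixed curves, random field: if `r` curves `E_m` are good over `L`, the `e` for which they are all good
  over `L(√e)`, `[L(√e) : L] = 2`, have the natural density **exactly** `c2 ^ (r 2 ^ n)`: the rank stays zero,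
  and no new point appears, in this proportion of the quadratic extensions `L(√e)` of **every** such `L`.
* Infinite towers: finitely many curves that are good over `L` (every `L` has a positive proportion of good
  curves by the first law) are all good over all the layers of an infinite tower
  `L ⊂ L(√q_0) ⊂ L(√q_0, √q_1) ⊂ …`, and each of the curves has exactly four points over the union
  `L(√q_0, √q_1, …)` of the layers, an infinite extension of `L` with the group `(ℤ/2)^∞`.

The statement over `L` (finiteness, `L`-series, `Ш`) and the first law for `r = 1` are in the starting file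
`MP_cd906c_nt/MultiquadraticX49`; the exact number of points, the joint laws, the second law and the
towers are new. Proof: the joint law of `r 2 ^ n` twists over `K` (`Pool/Agent/R426/QJ`); for the points of
odd order the reduction at the primes above `2` and the dynamics of the duplication, for those of
order four the squares in `L`.
-/

set_option autoImplicit false

namespace Pool.Agent.Results.MP_ae0bd0_nt.NextFieldTowersX49

open NumberField IsDedekindDomain Filter
open Pool.Agent.Results.MP_cd906c_nt.MultiquadraticX49 (curve InClass AllNoSelmer Independent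
  Conclusion c2)

/-- `E_D` is good over `L = K(√d_1, …, √d_n)`: `D` is in the class (squarefree, congruent to `1` modulo `4`,
prime to `√-7`) and prime to the `d_i`, and for all the `N` in the class that are `D` times a product of
some of the `d_i`, up to squares, `E_N(K)` is finite and `Ш(E_N/K)` has no element of order two. -/
def Good {K : Type} [Field K] [NumberField K] (a : 𝓞 K) {n : ℕ} (d : Fin n → 𝓞 K) (D : 𝓞 K) :
    Prop :=
  InClass a D ∧ (∀ i, IsCoprime D (d i)) ∧ AllNoSelmer a d D

/-- The statement for `E_D` over the number fields `L = K(√d_1, …, √d_n)`: the degree over `K` is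
`2 ^ n`, the group `E_D(L)` has exactly four elements, the rank conjecture holds, the `L`-series without the
Euler factors at the places dividing `14 D ∏ d_i` is entire and not zero at `1`, and the 2-primary part
of `Ш(E_D/L)` is finite and killed by `2 ^ n`. -/
def Over {K : Type} [Field K] [NumberField K] {n : ℕ} (d : Fin n → 𝓞 K) (D : 𝓞 K) : Prop :=
  ∀ (L : Type) [Field L] [NumberField L] [Algebra K L] (x : Fin n → L),
    (∀ i, x i ^ 2 = algebraMap K L (d i)) → IntermediateField.adjoin K (Set.range x) = ⊤ →
    Conclusion K n (algebraMap (𝓞 K) (𝓞 L) (14 * D * ∏ i, d i)) (curve (algebraMap K L D)) ∧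
      Nat.card (curve (algebraMap K L (D : K))).toAffine.Point = 4

/-- `E_D` has exactly four points over the fields `K(√d_1, …, √d_n, √q_0, √q_1, …)`. -/
def FourPoints {K : Type} [Field K] [NumberField K] {n : ℕ} (d : Fin n → 𝓞 K) (q : ℕ → 𝓞 K)
    (D : 𝓞 K) : Prop :=
  ∀ (M : Type) [Field M] [Algebra K M] (x : Fin n → M) (y : ℕ → M),
    (∀ i, x i ^ 2 = algebraMap K M (d i)) → (∀ j, y j ^ 2 = algebraMap K M (q j)) →
      IntermediateField.adjoin K (Set.range x ∪ Set.range y) = ⊤ →
        Nat.card (curve (algebraMap K M (D : K))).toAffine.Point = 4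

/-- The elements of norm at most `X` of the class that are prime to the `d_i` and to the elements
of `s`. -/
def family {K : Type} [Field K] [NumberField K] (a : 𝓞 K) {n : ℕ} (d : Fin n → 𝓞 K)
    (s : Finset (𝓞 K)) (X : ℕ) : Set (𝓞 K) :=
  {D | Ideal.absNorm (Ideal.span {D}) ≤ X ∧ InClass a D ∧ (∀ i, IsCoprime D (d i)) ∧
    ∀ m ∈ s, IsCoprime D m}

/-- The natural density of the elements with the property `P` in a family. -/
def HasDensity {K : Type} [Field K] [NumberField K] (F : ℕ → Set (𝓞 K)) (P : 𝓞 K → Prop) (δ : ℝ) :
    Prop :=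
  Tendsto (fun X : ℕ => ({D ∈ F X | P D}.ncard : ℝ) / ((F X).ncard : ℝ)) atTop (nhds δ)

lemma over_of {K : Type} [Field K] [NumberField K] {a : 𝓞 K} (ha : a ^ 2 = a - 2)
    (hK : Module.finrank ℚ K = 2) {n : ℕ} {d : Fin n → 𝓞 K} (hd : ∀ i, InClass a (d i))
    (hind : Independent d) {m : 𝓞 K} (hm : Good a d m) : Over d m := fun L _ _ _ x hx hL =>
  ⟨Pool.Agent.Results.MP_cd906c_nt.MultiquadraticX49.extension ha hK d hd hind hm.1 hm.2.1 hm.2.2
      L x hx hL,
    Pool.Agent.N843.TT.fourD ha hK hd hind hm L x hx hL⟩

/-- **Main theorem.** The rank conjecture and the exact number of points for several twists of `X_0(49)`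
over the multiquadratic extensions of `ℚ(√-7)`: the exact natural densities of the twists and of the next
fields, and infinite towers. -/
theorem result (K : Type) [Field K] [NumberField K] (a : 𝓞 K) (ha : a ^ 2 = a - 2)
    (hK : Module.finrank ℚ K = 2) (n : ℕ) (d : Fin n → 𝓞 K) (hd : ∀ i, InClass a (d i))
    (hind : Independent d) :
    -- the conjecture for the good curves
    (∀ m : 𝓞 K, Good a d m → Over d m) ∧
    -- the twists in the definition of the good curves exist
    (∀ D : 𝓞 K, InClass a D → (∀ i, IsCoprime D (d i)) → ∀ T : Finset (Fin n),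
      ∃ N c : 𝓞 K, InClass a N ∧ c ≠ 0 ∧ D * ∏ i ∈ T, d i = N * c ^ 2) ∧
    -- fixed field, random quadratic twists
    (∀ s : Finset (𝓞 K), s.Nonempty → (∀ m ∈ s, InClass a m ∧ ∀ i, IsCoprime m (d i)) →
      HasDensity (family a d s) (fun D => ∀ m ∈ s, Good a d (m * D)) (c2 ^ (s.card * 2 ^ n)) ∧
      ∃ δ : ℝ, 0 < δ ∧ ∀ᶠ X : ℕ in atTop, δ * X ≤ ((family a d s X).ncard : ℝ)) ∧
    -- fixed curves, random quadratic extension of the field
    (∀ s : Finset (𝓞 K), s.Nonempty → (∀ m ∈ s, Good a d m) →
      HasDensity (family a d s) (fun e => Independent (Fin.snoc d e : Fin (n + 1) → 𝓞 K) ∧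
        ∀ m ∈ s, Good a (Fin.snoc d e : Fin (n + 1) → 𝓞 K) m) (c2 ^ (s.card * 2 ^ n))) ∧
    -- infinite towers
    (∀ s : Finset (𝓞 K), s.Nonempty → (∀ m ∈ s, Good a d m) →
      ∃ q : ℕ → 𝓞 K, (∀ j, InClass a (q j)) ∧ (∀ m ∈ s, FourPoints d q m) ∧
        ∀ k, Independent (Fin.append d fun i : Fin k => q i) ∧
          ∀ m ∈ s, Good a (Fin.append d fun i : Fin k => q i) m ∧
            Over (Fin.append d fun i : Fin k => q i) m) ∧
    0.288 < c2 ∧ c2 < 0.289 := by
  classical
  obtain ⟨-, -, -, h3, h4⟩ := Pool.Agent.R426.QK.MOM.t_C2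
  refine ⟨fun m hm => over_of ha hK hd hind hm, fun D hD hc T => ?_,
    fun s hs0 hs => ?_, fun s hs0 hs => ?_, fun s hs0 hs => ?_, h3, h4⟩
  · exact Pool.Agent.Results.MP_cd906c_nt.MultiquadraticX49.classes ha hK d hd hind hD hc T
  · exact Pool.Agent.N843.TT.law_twist ha hK hd hind hs0 hs
  · exact Pool.Agent.N843.TT.law_next ha hK hd hind hs0 hs
  · obtain ⟨q, q1, q2⟩ := Pool.Agent.N843.TT.towers ha hK hd hind hs0 hs
    refine ⟨q, q1, fun m hm M _ _ x y hx hy hM => Pool.Agent.N843.TT.fourInf ha hK hd q1
      (fun k => (q2 k).1) (fun k => (q2 k).2 m hm) M x y hx hy hM, fun k => ⟨(q2 k).1, fun m hm => ⟨(q2 k).2 m hm, ?_⟩⟩⟩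
    refine over_of ha hK (fun i => ?_) (q2 k).1 ((q2 k).2 m hm)
    refine Fin.addCases (fun j => ?_) (fun j => ?_) i
    · rw [Fin.append_left]
      exact hd j
    · rw [Fin.append_right]
      exact q1 j

end Pool.Agent.Results.MP_ae0bd0_nt.NextFieldTowersX49
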